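import Pool.Agent.L5helper52.Imb.Defs

set_option autoImplicit false

/-!
# Universal traversal sequences (Aleliunas, Karp, Lipton, Lovász, Rackoff)

For every `n ≥ 1` there is a sequence of at most `6 n ^ 5` labels such that in every undirected
graph on `Fin n` the walk with this sequence visits the whole component of its starting point. The
label `a` means: go to `a` if `a` is a neighbour of the present vertex, otherwise stay.
-/

namespace Pool.Agent.L5helper52.Imb

open Finset

variable {n : ℕ}

/-- one step of the walk -/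
def stepTo (A : Fin n → Fin n → Bool) (u a : Fin n) : Fin n := if A u a = true then a else u

/-- the walk visits `v` -/
def Hits (A : Fin n → Fin n → Bool) (v : Fin n) : Fin n → List (Fin n) → Prop
  | u, [] => u = v
  | u, a :: σ => u = v ∨ Hits A v (stepTo A u a) σ

/-- the averaging operator of the walk -/
noncomputable def avg (A : Fin n → Fin n → Bool) (g : Fin n → ℝ) (u : Fin n) : ℝ :=
  (∑ a, g (stepTo A u a)) / n

/-- the probability that the walk of length `j` from `u` does not visit `v` -/
noncomputable def miss (A : Fin n → Fin n → Bool) (v : Fin n) : ℕ → Fin n → ℝ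
  | 0, u => if u = v then 0 else 1
  | j + 1, u => if u = v then 0 else avg A (miss A v j) u

theorem avg_eq (A : Fin n → Fin n → Bool) (g : Fin n → ℝ) (u : Fin n) (hn : 0 < n) :
    avg A g u = g u + (∑ a, (if A u a = true then g a - g u else 0)) / n := by
  have hn' : (n : ℝ) ≠ 0 := by positivity
  unfold avg
  have : ∀ a, g (stepTo A u a) = g u + (if A u a = true then g a - g u else 0) := by
    intro a
    unfold stepTo
    split_ifs <;> ring
  simp_rw [this]
  rw [sum_add_distrib, sum_const, card_univ, Fintype.card_fin, nsmul_eq_mul, add_div,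
    mul_div_assoc]
  congr 1
  field_simp

theorem avg_mono (A : Fin n → Fin n → Bool) {g h : Fin n → ℝ} (u : Fin n)
    (H : ∀ a, g (stepTo A u a) ≤ h (stepTo A u a)) : avg A g u ≤ avg A h u := by
  unfold avg
  gcongr with a _
  exact H a

theorem avg_const (A : Fin n → Fin n → Bool) (c : ℝ) (u : Fin n) (hn : 0 < n) :
    avg A (fun _ => c) u = c := by
  have hn' : (n : ℝ) ≠ 0 := by positivity
  unfold avg
  rw [sum_const, card_univ, Fintype.card_fin, nsmul_eq_mul]
  field_simp

theorem avg_add (A : Fin n → Fin n → Bool) (g h : Fin n → ℝ) (u : Fin n) :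
    avg A (fun w => g w + h w) u = avg A g u + avg A h u := by
  unfold avg
  rw [sum_add_distrib, add_div]

theorem avg_smul (A : Fin n → Fin n → Bool) (c : ℝ) (g : Fin n → ℝ) (u : Fin n) :
    avg A (fun w => c * g w) u = c * avg A g u := by
  unfold avg
  rw [← mul_sum, mul_div_assoc]

theorem miss_self (A : Fin n → Fin n → Bool) (v : Fin n) (j : ℕ) : miss A v j v = 0 := by
  cases j <;> simp [miss]

theorem miss_nonneg (A : Fin n → Fin n → Bool) (v : Fin n) (j : ℕ) (u : Fin n) :
    0 ≤ miss A v j u := by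
  induction j generalizing u with
  | zero => simp only [miss]; split_ifs <;> norm_num
  | succ j ih =>
    simp only [miss]
    split_ifs
    · exact le_rfl
    · unfold avg
      exact div_nonneg (sum_nonneg fun a _ => ih _) (Nat.cast_nonneg _)

theorem miss_le_one (A : Fin n → Fin n → Bool) (hn : 0 < n) (v : Fin n) (j : ℕ) (u : Fin n) :
    miss A v j u ≤ 1 := by
  induction j generalizing u with
  | zero => simp only [miss]; split_ifs <;> norm_num
  | succ j ih =>
    simp only [miss]
    split_ifs
    · exact zero_le_one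
    · calc avg A (miss A v j) u ≤ avg A (fun _ => 1) u := avg_mono A u fun a => ih _
        _ = 1 := avg_const A 1 u hn

theorem miss_succ_le (A : Fin n → Fin n → Bool) (hn : 0 < n) (v : Fin n) (j : ℕ) (u : Fin n) :
    miss A v (j + 1) u ≤ miss A v j u := by
  induction j generalizing u with
  | zero =>
    by_cases h : u = v
    · subst h; rw [miss_self, miss_self]
    · have h1 : miss A v 0 u = 1 := by simp [miss, h]
      rw [h1]
      exact miss_le_one A hn v 1 u
  | succ j ih =>
    by_cases h : u = v
    · subst h; rw [miss_self, miss_self]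
    · have h1 : miss A v (j + 1 + 1) u = avg A (miss A v (j + 1)) u := by simp [miss, h]
      have h2 : miss A v (j + 1) u = avg A (miss A v j) u := by simp [miss, h]
      rw [h1, h2]
      exact avg_mono A u fun a => ih _

theorem miss_antitone (A : Fin n → Fin n → Bool) (hn : 0 < n) (v u : Fin n) :
    Antitone fun j => miss A v j u :=
  antitone_nat_of_succ_le fun j => miss_succ_le A hn v j u

/-- truncated expected hitting time -/
noncomputable def hit (A : Fin n → Fin n → Bool) (v : Fin n) (J : ℕ) (u : Fin n) : ℝ :=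
  ∑ j ∈ range J, miss A v j u

theorem hit_self (A : Fin n → Fin n → Bool) (v : Fin n) (J : ℕ) : hit A v J v = 0 := by
  unfold hit
  exact sum_eq_zero fun j _ => miss_self A v j

theorem hit_succ (A : Fin n → Fin n → Bool) (v : Fin n) (J : ℕ) (u : Fin n) (h : u ≠ v) :
    hit A v (J + 1) u = 1 + avg A (hit A v J) u := by
  unfold hit
  rw [sum_range_succ']
  have h0 : miss A v 0 u = 1 := by simp [miss, h]
  have h1 : ∀ j, miss A v (j + 1) u = avg A (miss A v j) u := by intro j; simp [miss, h]
  simp_rw [h0, h1]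
  unfold avg
  rw [add_comm, ← sum_div, sum_comm]

theorem hit_mono (A : Fin n → Fin n → Bool) (v : Fin n) (J : ℕ) (u : Fin n) :
    hit A v J u ≤ hit A v (J + 1) u := by
  unfold hit
  rw [sum_range_succ]
  have := miss_nonneg A v J u
  linarith

theorem hit_triangle (A : Fin n → Fin n → Bool) (hn : 0 < n) (v w : Fin n) (J : ℕ) (u : Fin n) :
    hit A v J u ≤ hit A w J u + hit A v J w := by
  induction J generalizing u with
  | zero => simp [hit]
  | succ J ih =>
    by_cases h1 : u = w
    · subst h1
      rw [hit_self]; simp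
    by_cases h2 : u = v
    · subst h2
      rw [hit_self]
      have h3 : 0 ≤ hit A w (J + 1) u := sum_nonneg fun j _ => miss_nonneg A w j u
      have h4 : 0 ≤ hit A u (J + 1) w := sum_nonneg fun j _ => miss_nonneg A u j w
      linarith
    rw [hit_succ A v J u h2, hit_succ A w J u h1]
    have h3 : avg A (hit A v J) u ≤ avg A (fun z => hit A w J z + hit A v J w) u :=
      avg_mono A u fun a => ih _
    rw [avg_add, avg_const A _ u hn] at h3
    have h4 := hit_mono A v J w
    linarith

section Symm

variable {A : Fin n → Fin n → Bool} (hA : ∀ a b, A a b = A b a) (hn : 0 < n)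

include hA hn

theorem sum_avg (g : Fin n → ℝ) : ∑ u, avg A g u = ∑ u, g u := by
  simp_rw [avg_eq A g _ hn]
  rw [sum_add_distrib, ← sum_div]
  have h0 : ∑ u, ∑ a, (if A u a = true then g a - g u else 0) = 0 := by
    have h1 : ∑ u, ∑ a, (if A u a = true then g a - g u else 0)
        = ∑ u, ∑ a, (if A u a = true then g u - g a else 0) := by
      rw [sum_comm]
      refine sum_congr rfl fun u _ => sum_congr rfl fun a _ => ?_
      rw [hA a u]
    have h2 : ∑ u, ∑ a, (if A u a = true then g a - g u else 0)
        = - ∑ u, ∑ a, (if A u a = true then g u - g a else 0) := by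
      rw [← sum_neg_distrib]
      refine sum_congr rfl fun u _ => ?_
      rw [← sum_neg_distrib]
      refine sum_congr rfl fun a _ => ?_
      split_ifs <;> ring
    linarith
  rw [h0, zero_div, add_zero]

/-- Kac's formula for the return time -/
theorem sum_miss_succ (v : Fin n) (j : ℕ) :
    avg A (miss A v j) v = ∑ u, miss A v j u - ∑ u, miss A v (j + 1) u := by
  have h1 : ∑ u, miss A v (j + 1) u = ∑ u, avg A (miss A v j) u - avg A (miss A v j) v := by
    rw [← sum_erase_eq_sub (mem_univ v), ← sum_erase univ (miss_self A v (j + 1))]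
    refine sum_congr rfl fun u hu => ?_
    have : u ≠ v := (mem_erase.1 hu).1
    simp [miss, this]
  rw [sum_avg hA hn] at h1
  linarith

theorem hit_adj (v u : Fin n) (h : A v u = true) (J : ℕ) : hit A v J u ≤ (n : ℝ) ^ 2 := by
  have hn' : (0 : ℝ) < n := by positivity
  have h1 : ∀ j, miss A v j u ≤ n * avg A (miss A v j) v := by
    intro j
    unfold avg
    rw [mul_div_cancel₀ _ hn'.ne']
    have : miss A v j u = miss A v j (stepTo A v u) := by simp [stepTo, h]
    rw [this]
    exact single_le_sum (f := fun a => miss A v j (stepTo A v a))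
      (fun a _ => miss_nonneg A v j _) (mem_univ u)
  have h2 : ∑ j ∈ range J, avg A (miss A v j) v ≤ n := by
    have h3 : ∀ j ∈ range J, avg A (miss A v j) v
        = ∑ u, miss A v j u - ∑ u, miss A v (j + 1) u := fun j _ => sum_miss_succ hA hn v j
    rw [sum_congr rfl h3, sum_range_sub' (fun j => ∑ u, miss A v j u)]
    have h4 : 0 ≤ ∑ u, miss A v J u := sum_nonneg fun u _ => miss_nonneg A v J u
    have h5 : ∑ u, miss A v 0 u ≤ n := by
      calc ∑ u, miss A v 0 u ≤ ∑ _u : Fin n, (1 : ℝ) := sum_le_sum fun u _ => miss_le_one A hn v 0 u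
        _ = n := by simp
    linarith
  calc hit A v J u ≤ ∑ j ∈ range J, n * avg A (miss A v j) v := sum_le_sum fun j _ => h1 j
    _ = n * ∑ j ∈ range J, avg A (miss A v j) v := by rw [mul_sum]
    _ ≤ n * n := by gcongr
    _ = (n : ℝ) ^ 2 := by ring

/-- the undirected graph -/
def toGraph (A : Fin n → Fin n → Bool) (hA : ∀ a b, A a b = A b a) : SimpleGraph (Fin n) where
  Adj a b := a ≠ b ∧ A a b = true
  symm := ⟨fun a b h => ⟨h.1.symm, by rw [hA]; exact h.2⟩⟩
  loopless := ⟨fun a h => h.1 rfl⟩

theorem hit_walk (J : ℕ) {u v : Fin n} (p : (toGraph A hA).Walk u v) :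
    hit A v J u ≤ p.length * (n : ℝ) ^ 2 := by
  induction p with
  | nil => simp [hit_self]
  | @cons u w v h p ih =>
    have h1 := hit_triangle A hn v w J u
    have h2 := hit_adj hA hn w u (by rw [hA]; exact h.2) J
    rw [SimpleGraph.Walk.length_cons]
    push_cast
    linarith

theorem hit_le {u v : Fin n} (h : (toGraph A hA).Reachable u v) (J : ℕ) :
    hit A v J u ≤ (n : ℝ) ^ 3 := by
  obtain ⟨p, hp⟩ := h.exists_isPath
  have h1 := hit_walk hA hn J p
  have h2 : p.length < n := by
    have := hp.length_lt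
    simpa using this
  have h3 : (p.length : ℝ) ≤ n := by exact_mod_cast h2.le
  calc hit A v J u ≤ p.length * (n : ℝ) ^ 2 := h1
    _ ≤ n * (n : ℝ) ^ 2 := by gcongr
    _ = (n : ℝ) ^ 3 := by ring

theorem miss_le_half {u v : Fin n} (h : (toGraph A hA).Reachable u v) :
    miss A v (2 * n ^ 3) u ≤ 1 / 2 := by
  have h1 := hit_le hA hn h (2 * n ^ 3)
  have h2 : ((2 * n ^ 3 : ℕ) : ℝ) * miss A v (2 * n ^ 3) u ≤ hit A v (2 * n ^ 3) u := by
    unfold hit
    have : ∑ _j ∈ range (2 * n ^ 3), miss A v (2 * n ^ 3) u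
        = ((2 * n ^ 3 : ℕ) : ℝ) * miss A v (2 * n ^ 3) u := by
      rw [sum_const, card_range, nsmul_eq_mul]
    rw [← this]
    exact sum_le_sum fun j hj => miss_antitone A hn v u (mem_range.1 hj).le
  have h3 : (0 : ℝ) < (n : ℝ) ^ 3 := by positivity
  push_cast at h2
  nlinarith

omit hn in
theorem reachable_stepTo {u v : Fin n} (h : (toGraph A hA).Reachable u v) (a : Fin n) :
    (toGraph A hA).Reachable (stepTo A u a) v := by
  unfold stepTo
  split_ifs with h1
  · by_cases h2 : u = a
    · subst h2; exact h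
    · have h3 : (toGraph A hA).Adj u a := ⟨h2, h1⟩
      exact h3.reachable.symm.trans h
  · exact h

theorem miss_add_le {u v : Fin n} (h : (toGraph A hA).Reachable u v) (j : ℕ) :
    miss A v (j + 2 * n ^ 3) u ≤ 1 / 2 * miss A v j u := by
  induction j generalizing u with
  | zero =>
    by_cases h1 : u = v
    · subst h1; rw [miss_self, miss_self]; simp
    · have h2 : miss A v 0 u = 1 := by simp [miss, h1]
      rw [h2, zero_add, mul_one]
      exact miss_le_half hA hn h
  | succ j ih =>
    by_cases h1 : u = v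
    · subst h1; rw [miss_self, miss_self]; simp
    · have h2 : miss A v (j + 1 + 2 * n ^ 3) u = avg A (miss A v (j + 2 * n ^ 3)) u := by
        rw [show j + 1 + 2 * n ^ 3 = (j + 2 * n ^ 3) + 1 by ring]
        simp [miss, h1]
      have h3 : miss A v (j + 1) u = avg A (miss A v j) u := by simp [miss, h1]
      rw [h2, h3, ← avg_smul]
      exact avg_mono A u fun a => ih (reachable_stepTo hA h a)

theorem miss_le_pow {u v : Fin n} (h : (toGraph A hA).Reachable u v) (r : ℕ) :
    miss A v (r * (2 * n ^ 3)) u ≤ (1 / 2 : ℝ) ^ r := by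
  induction r with
  | zero => simpa using miss_le_one A hn v 0 u
  | succ r ih =>
    have h1 := miss_add_le hA hn h (r * (2 * n ^ 3))
    have h2 : (r + 1) * (2 * n ^ 3) = r * (2 * n ^ 3) + 2 * n ^ 3 := by ring
    rw [h2]
    have h3 : (1 / 2 : ℝ) ^ (r + 1) = 1 / 2 * (1 / 2 : ℝ) ^ r := by ring
    rw [h3]
    linarith

end Symm

/-- the method of conditional expectations -/
theorem exists_seq {I : Type} [Fintype I] (hn : 0 < n) (A : I → Fin n → Fin n → Bool)
    (v : I → Fin n) (ℓ : ℕ) (u : I → Fin n) (H : ∑ i, miss (A i) (v i) ℓ (u i) < 1) :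
    ∃ σ : List (Fin n), σ.length = ℓ ∧ ∀ i, Hits (A i) (v i) (u i) σ := by
  induction ℓ generalizing u with
  | zero =>
    refine ⟨[], rfl, fun i => ?_⟩
    by_contra h
    have h0 : ¬ (u i = v i) := h
    have h1 : miss (A i) (v i) 0 (u i) = 1 := by simp [miss, h0]
    have h2 : miss (A i) (v i) 0 (u i) ≤ ∑ i, miss (A i) (v i) 0 (u i) :=
      single_le_sum (f := fun i => miss (A i) (v i) 0 (u i))
        (fun i _ => miss_nonneg _ _ _ _) (mem_univ i)
    linarith
  | succ ℓ ih =>
    classical
    -- instances which have been hit stay at their place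
    let w : Fin n → I → Fin n := fun a i => if u i = v i then u i else stepTo (A i) (u i) a
    have h1 : ∀ i, miss (A i) (v i) (ℓ + 1) (u i)
        = (∑ a, miss (A i) (v i) ℓ (w a i)) / n := by
      intro i
      by_cases h : u i = v i
      · have h2 : ∀ a, miss (A i) (v i) ℓ (w a i) = 0 := by
          intro a
          simp only [w, if_pos h]
          rw [h, miss_self]
        rw [h, miss_self]
        simp [h2]
      · simp only [miss, if_neg h, w]
        rfl
    have hn' : (0 : ℝ) < n := by positivity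
    have h2 : ∑ a, ∑ i, miss (A i) (v i) ℓ (w a i) < ∑ _a : Fin n, (1 : ℝ) := by
      rw [sum_comm]
      have h3 : ∑ i, ∑ a, miss (A i) (v i) ℓ (w a i)
          = n * ∑ i, miss (A i) (v i) (ℓ + 1) (u i) := by
        rw [mul_sum]
        refine sum_congr rfl fun i _ => ?_
        rw [h1 i]
        field_simp
      rw [h3]
      simp only [sum_const, card_univ, Fintype.card_fin, nsmul_eq_mul, mul_one]
      nlinarith
    obtain ⟨a, _, ha⟩ := exists_lt_of_sum_lt h2
    obtain ⟨σ, hσ, hh⟩ := ih (w a) ha
    refine ⟨a :: σ, by simp [hσ], fun i => ?_⟩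
    by_cases h : u i = v i
    · exact Or.inl h
    · right
      have := hh i
      simpa only [w, if_neg h] using this

/-- **Universal traversal sequences.** -/
theorem exists_universal (n : ℕ) (hn : 0 < n) :
    ∃ σ : List (Fin n), σ.length ≤ 6 * n ^ 5 ∧
      ∀ (A : Fin n → Fin n → Bool) (hA : ∀ a b, A a b = A b a) (u v : Fin n),
        (toGraph A hA).Reachable u v → Hits A v u σ := by
  classical
  let I : Type := {i : (Fin n → Fin n → Bool) × Fin n × Fin n //
    ∃ hA : ∀ a b, i.1 a b = i.1 b a, (toGraph i.1 hA).Reachable i.2.1 i.2.2}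
  let r : ℕ := n ^ 2 + 2 * n
  have hcard : Fintype.card I ≤ 2 ^ (n ^ 2) * (n * n) := by
    refine (Fintype.card_subtype_le _).trans ?_
    simp only [Fintype.card_prod, Fintype.card_pi, Fintype.card_bool, Fintype.card_fin,
      prod_const, card_univ]
    rw [← pow_mul, sq]
  have hlt : (n * n : ℕ) < 2 ^ (2 * n) := by
    have h1 : n < 2 ^ n := Nat.lt_two_pow_self
    calc n * n < 2 ^ n * 2 ^ n := Nat.mul_lt_mul'' h1 h1
      _ = 2 ^ (2 * n) := by rw [← pow_add]; ring_nf
  have hsum : ∑ i : I, miss i.1.1 i.1.2.2 (r * (2 * n ^ 3)) i.1.2.1 < 1 := by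
    have h1 : ∑ i : I, miss i.1.1 i.1.2.2 (r * (2 * n ^ 3)) i.1.2.1
        ≤ ∑ _i : I, (1 / 2 : ℝ) ^ r := by
      refine sum_le_sum fun i _ => ?_
      obtain ⟨hA, hr⟩ := i.2
      exact miss_le_pow hA hn hr r
    rw [sum_const, card_univ, nsmul_eq_mul] at h1
    have h2 : (Fintype.card I : ℝ) < 2 ^ r := by
      have : Fintype.card I < 2 ^ r := by
        calc Fintype.card I ≤ 2 ^ (n ^ 2) * (n * n) := hcard
          _ < 2 ^ (n ^ 2) * 2 ^ (2 * n) := Nat.mul_lt_mul_of_pos_left hlt (by positivity)
          _ = 2 ^ r := by rw [← pow_add]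
      exact_mod_cast this
    have h3 : (Fintype.card I : ℝ) * (1 / 2 : ℝ) ^ r < 1 := by
      rw [one_div, inv_pow, ← div_eq_mul_inv, div_lt_one (by positivity)]
      exact h2
    linarith
  obtain ⟨σ, hσ, hh⟩ := exists_seq hn (fun i : I => i.1.1) (fun i => i.1.2.2) (r * (2 * n ^ 3))
    (fun i => i.1.2.1) hsum
  refine ⟨σ, ?_, fun A hA u v h => hh ⟨(A, u, v), hA, h⟩⟩
  rw [hσ]
  have h1 : n ^ 4 ≤ n ^ 5 := Nat.pow_le_pow_right hn (by norm_num)
  calc (n ^ 2 + 2 * n) * (2 * n ^ 3) = 2 * n ^ 5 + 4 * n ^ 4 := by ring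
    _ ≤ 2 * n ^ 5 + 4 * n ^ 5 := by omega
    _ = 6 * n ^ 5 := by ring

end Pool.Agent.L5helper52.Imb
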