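import Pool.Agent.L5helper52.Imb.Trail
import Pool.Agent.L5helper52.Imb.Walk

set_option autoImplicit false

/-!
# The algorithm for digraphs of small imbalance

The state is a list of at most `k` arcs, at most one on every open trail. An arc is active if it
lies on a closed trail or comes after one of the stored arcs on its trail. As long as there is an
inactive arc whose tail is connected to `s` by active arcs (in the undirected sense), this arc
replaces the stored arc of its trail (or is put on a free place if there is none). In the end the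
vertices which are connected to `s` are exactly those which can be reached from `s`.
-/

namespace Pool.Agent.L5helper52.Imb

open Finset

variable {n : ℕ}

/-! ### Walks which look for a vertex -/

/-- the walk with labels `σ` from `s` finds a vertex with property `D` -/
def walkB (A : Fin n → Fin n → Bool) (D : Fin n → Bool) (s : Fin n) (σ : List (Fin n)) : Bool :=
  (σ.foldl (fun p a => (stepTo A p.1 a, p.2 || D (stepTo A p.1 a))) (s, D s)).2

theorem walkB_aux (A : Fin n → Fin n → Bool) (D : Fin n → Bool) (σ : List (Fin n)) (s : Fin n)
    (b : Bool) :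
    (σ.foldl (fun p a => (stepTo A p.1 a, p.2 || D (stepTo A p.1 a))) (s, b || D s)).2 = true ↔
      b = true ∨ ∃ v, D v = true ∧ Hits A v s σ := by
  induction σ generalizing s b with
  | nil =>
    simp only [List.foldl_nil, Bool.or_eq_true]
    refine or_congr Iff.rfl ⟨fun h => ⟨s, h, rfl⟩, ?_⟩
    rintro ⟨v, hv, h⟩
    rw [show s = v from h]
    exact hv
  | cons a σ ih =>
    rw [List.foldl_cons, ih]
    rw [Bool.or_eq_true, or_assoc]
    refine or_congr Iff.rfl ?_
    constructor
    · rintro (h | ⟨v, hv, h⟩)
      · exact ⟨s, h, Or.inl rfl⟩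
      · exact ⟨v, hv, Or.inr h⟩
    · rintro ⟨v, hv, h | h⟩
      · left; rw [h]; exact hv
      · right; exact ⟨v, hv, h⟩

theorem walkB_iff (A : Fin n → Fin n → Bool) (D : Fin n → Bool) (σ : List (Fin n)) (s : Fin n) :
    walkB A D s σ = true ↔ ∃ v, D v = true ∧ Hits A v s σ := by
  have := walkB_aux A D σ s false
  simpa [walkB] using this

theorem hits_reach {A : Fin n → Fin n → Bool} {v : Fin n} (σ : List (Fin n)) (u : Fin n)
    (h : Hits A v u σ) : Relation.ReflTransGen (fun a b => A a b = true) u v := by
  induction σ generalizing u with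
  | nil => rw [show u = v from h]
  | cons a σ ih =>
    rcases h with h | h
    · rw [h]
    · have hr := ih _ h
      unfold stepTo at hr
      split_ifs at hr with h1
      · exact Relation.ReflTransGen.head h1 hr
      · exact hr

/-- A universal sequence. -/
def Universal (σ : List (Fin n)) : Prop :=
  ∀ (A : Fin n → Fin n → Bool) (hA : ∀ a b, A a b = A b a) (u v : Fin n),
    (toGraph A hA).Reachable u v → Hits A v u σ

theorem reachable_of_reflTransGen {A : Fin n → Fin n → Bool} (hA : ∀ a b, A a b = A b a)
    {u v : Fin n} (h : Relation.ReflTransGen (fun a b => A a b = true) u v) :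
    (toGraph A hA).Reachable u v := by
  induction h with
  | refl => exact SimpleGraph.Reachable.refl _
  | @tail b c _ hbc ih =>
    by_cases h1 : b = c
    · rwa [← h1]
    · have h2 : (toGraph A hA).Adj b c := ⟨h1, hbc⟩
      exact ih.trans h2.reachable

theorem hits_iff {σ : List (Fin n)} (hσ : Universal σ) {A : Fin n → Fin n → Bool}
    (hA : ∀ a b, A a b = A b a) (u v : Fin n) :
    Hits A v u σ ↔ Relation.ReflTransGen (fun a b => A a b = true) u v :=
  ⟨fun h => hits_reach σ u h, fun h => hσ A hA u v (reachable_of_reflTransGen hA h)⟩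

/-! ### The tests -/

/-- the arc `f` comes after the arc `e` on its trail -/
def descB (x : Fin n → Fin n → Bool) (e f : Fin n × Fin n) : Bool :=
  (List.finRange (n * n)).any fun j => itO (nxa x) j.1 e == some f

/-- the arc `e` lies on a closed trail -/
def closedB (x : Fin n → Fin n → Bool) (e : Fin n × Fin n) : Bool :=
  (List.finRange (n * n)).any fun j => itO (nxa x) (j.1 + 1) e == some e

theorem descB_iff (x : Fin n → Fin n → Bool) (e f : Fin n × Fin n) :
    descB x e f = true ↔ Desc (nxa x) e f := by
  unfold descB
  simp only [List.any_eq_true, List.mem_finRange, true_and, beq_iff_eq]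
  constructor
  · rintro ⟨j, hj⟩; exact ⟨j.1, hj⟩
  · intro h
    obtain ⟨j, hj, h1⟩ := h.bound
    rw [Fintype.card_prod, Fintype.card_fin] at hj
    exact ⟨⟨j, hj⟩, h1⟩

theorem closedB_iff (x : Fin n → Fin n → Bool) (e : Fin n × Fin n) :
    closedB x e = true ↔ Cyc (nxa x) e := by
  unfold closedB
  simp only [List.any_eq_true, List.mem_finRange, true_and, beq_iff_eq]
  constructor
  · rintro ⟨j, hj⟩; exact ⟨j.1, hj⟩
  · intro h
    obtain ⟨j, hj, h1⟩ := h.bound
    rw [Fintype.card_prod, Fintype.card_fin] at hj
    exact ⟨⟨j, hj⟩, h1⟩

/-- the states of the algorithm -/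
abbrev St (n k : ℕ) : Type := Fin k → Option (Fin n × Fin n)

variable {k : ℕ}

/-- the `i`-th place contains an arc with the property `p` -/
def atPlace (F : St n k) (i : Fin k) (p : Fin n × Fin n → Bool) : Bool :=
  match F i with
  | some f => p f
  | none => false

theorem atPlace_iff (F : St n k) (i : Fin k) (p : Fin n × Fin n → Bool) :
    atPlace F i p = true ↔ ∃ f, F i = some f ∧ p f = true := by
  unfold atPlace
  cases F i <;> simp

/-- `e` is an active arc -/
def memB (x : Fin n → Fin n → Bool) (F : St n k) (e : Fin n × Fin n) : Bool :=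
  x e.1 e.2 && (closedB x e || (List.finRange k).any fun i => atPlace F i fun f => descB x f e)

theorem memB_iff (x : Fin n → Fin n → Bool) (F : St n k) (e : Fin n × Fin n) :
    memB x F e = true ↔ x e.1 e.2 = true ∧ (Cyc (nxa x) e ∨
      ∃ i f, F i = some f ∧ Desc (nxa x) f e) := by
  unfold memB
  simp only [Bool.and_eq_true, Bool.or_eq_true, closedB_iff, List.any_eq_true, List.mem_finRange,
    true_and, atPlace_iff, descB_iff]

/-- adjacency by active arcs -/
def actB (x : Fin n → Fin n → Bool) (F : St n k) (a b : Fin n) : Bool :=
  memB x F (a, b) || memB x F (b, a)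

theorem actB_symm (x : Fin n → Fin n → Bool) (F : St n k) (a b : Fin n) :
    actB x F a b = actB x F b a := Bool.or_comm _ _

variable (σ : List (Fin n)) (s : Fin n)

/-- `v` is connected to `s` by active arcs -/
def inC (x : Fin n → Fin n → Bool) (F : St n k) (v : Fin n) : Bool :=
  walkB (actB x F) (fun w => w == v) s σ

theorem inC_iff (hσ : Universal σ) (x : Fin n → Fin n → Bool) (F : St n k) (v : Fin n) :
    inC σ s x F v = true ↔ Relation.ReflTransGen (fun a b => actB x F a b = true) s v := by
  unfold inC
  rw [walkB_iff, ← hits_iff hσ (actB_symm x F)]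
  constructor
  · rintro ⟨w, hw, h⟩
    rw [beq_iff_eq] at hw
    rwa [← hw]
  · intro h
    exact ⟨v, by simp, h⟩

/-- `e` is an inactive arc whose tail is connected to `s` -/
def testB (x : Fin n → Fin n → Bool) (F : St n k) (e : Fin n × Fin n) : Bool :=
  x e.1 e.2 && (!memB x F e && inC σ s x F e.1)

/-- put the arc `e` into the state -/
def place (F : St n k) (e : Fin n × Fin n) : Option (Fin k) → St n k
  | some i => Function.update F i (some e)
  | none => match (List.finRange k).find? fun i => (F i).isNone with
    | some i => Function.update F i (some e)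
    | none => F

/-- the list of all pairs of vertices -/
def allPairs (n : ℕ) : List (Fin n × Fin n) := List.finRange n ×ˢ List.finRange n

theorem mem_allPairs (e : Fin n × Fin n) : e ∈ allPairs n := by
  unfold allPairs
  rw [List.mem_product]
  exact ⟨List.mem_finRange _, List.mem_finRange _⟩

theorem length_allPairs : (allPairs n).length = n * n := by
  unfold allPairs
  rw [List.length_product]
  simp

/-- the place of the stored arc on the trail of `e` -/
def slot (x : Fin n → Fin n → Bool) (F : St n k) (e : Fin n × Fin n) : Option (Fin k) :=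
  (List.finRange k).find? fun i => atPlace F i fun f => descB x e f

/-- one step of the algorithm, when the arc has been found -/
def upd1 (x : Fin n → Fin n → Bool) (F : St n k) : Option (Fin n × Fin n) → St n k
  | some e => place F e (slot x F e)
  | none => F

/-- one step of the algorithm -/
def upd (x : Fin n → Fin n → Bool) (F : St n k) : St n k :=
  upd1 x F ((allPairs n).find? fun e => testB σ s x F e)

/-- the result of the algorithm -/
def run (x : Fin n → Fin n → Bool) (k : ℕ) : St n k :=
  (fun F => upd σ s x F)^[n * n + 1] fun _ => none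

/-! ### Correctness -/

/-- the invariants -/
structure Inv (x : Fin n → Fin n → Bool) (F : St n k) : Prop where
  arc : ∀ i f, F i = some f → x f.1 f.2 = true
  opn : ∀ i f, F i = some f → ¬ Cyc (nxa x) f
  rch : ∀ i f, F i = some f → Reach x s f.1
  inc : ∀ i j f f', F i = some f → F j = some f' → Desc (nxa x) f f' → i = j

variable {s} {x : Fin n → Fin n → Bool} {F : St n k}

theorem reach_arc (hF : Inv s x F) {a b : Fin n} (h : memB x F (a, b) = true) :
    Reach x s a ↔ Reach x s b := by
  rw [memB_iff] at h
  refine ⟨fun ha => ha.tail h.1, fun hb => ?_⟩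
  rcases h.2 with h1 | ⟨i, f, hf, h1⟩
  · exact hb.trans (reach_of_cyc h1)
  · exact (hF.rch i f hf).trans (reach_of_desc h1)

theorem reach_of_conn (hF : Inv s x F) {v : Fin n}
    (h : Relation.ReflTransGen (fun a b => actB x F a b = true) s v) : Reach x s v := by
  induction h with
  | refl => exact Relation.ReflTransGen.refl
  | tail _ hbc ih =>
    unfold actB at hbc
    rw [Bool.or_eq_true] at hbc
    rcases hbc with h1 | h1
    · exact (reach_arc hF h1).1 ih
    · exact (reach_arc hF h1).2 ih

/-- what is known about an arc which passes the test -/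
theorem test_spec (hσ : Universal σ) (hF : Inv s x F) {e : Fin n × Fin n}
    (he : testB σ s x F e = true) :
    x e.1 e.2 = true ∧ ¬ Cyc (nxa x) e ∧ (∀ i f, F i = some f → ¬ Desc (nxa x) f e) ∧
      Reach x s e.1 := by
  unfold testB at he
  rw [Bool.and_eq_true, Bool.and_eq_true, Bool.not_eq_true', inC_iff σ s hσ] at he
  obtain ⟨h1, h2, h3⟩ := he
  have h4 : ¬ memB x F e = true := by simp [h2]
  rw [memB_iff] at h4
  refine ⟨h1, fun h => h4 ⟨h1, Or.inl h⟩, fun i f hf h => h4 ⟨h1, Or.inr ⟨i, f, hf, h⟩⟩,
    reach_of_conn hF h3⟩

/-- the new state: either the arc `e` is put at a place `i` such that the old arc at this place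
(if any) comes after `e`, and no other stored arc comes after `e`, or there is no place. -/
theorem place_spec (hF : Inv s x F) (e : Fin n × Fin n) :
    (∃ i, place F e (slot x F e) = Function.update F i (some e) ∧
      (∀ f, F i = some f → Desc (nxa x) e f) ∧
      (∀ j f, F j = some f → Desc (nxa x) e f → j = i)) ∨
    (place F e (slot x F e) = F ∧ (∀ i, F i ≠ none) ∧
      ∀ i f, F i = some f → ¬ Desc (nxa x) e f) := by
  cases h0 : slot x F e with
  | some i =>
    left
    have h1 := List.find?_some h0
    rw [atPlace_iff] at h1
    obtain ⟨f, hf, h2⟩ := h1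
    rw [descB_iff] at h2
    refine ⟨i, rfl, fun f' hf' => ?_, fun j f' hf' h3 => ?_⟩
    · rw [hf, Option.some.injEq] at hf'
      rw [← hf']; exact h2
    · rcases h2.comparable h3 with h4 | h4
      · exact (hF.inc i j f f' hf hf' h4).symm
      · exact hF.inc j i f' f hf' hf h4
  | none =>
    have h1 : ∀ i f, F i = some f → ¬ Desc (nxa x) e f := by
      intro i f hf h2
      unfold slot at h0
      rw [List.find?_eq_none] at h0
      refine h0 i (List.mem_finRange i) ?_
      rw [atPlace_iff]
      exact ⟨f, hf, (descB_iff x e f).2 h2⟩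
    unfold place
    cases h2 : (List.finRange k).find? fun i => (F i).isNone with
    | some i =>
      left
      have h3 := List.find?_some h2
      rw [Option.isNone_iff_eq_none] at h3
      refine ⟨i, rfl, fun f hf => ?_, fun j f hf h4 => absurd h4 (h1 j f hf)⟩
      rw [h3] at hf
      simp at hf
    | none =>
      right
      refine ⟨rfl, fun i hi => ?_, h1⟩
      rw [List.find?_eq_none] at h2
      exact h2 i (List.mem_finRange i) (by simp [hi])

theorem inv_place (hσ : Universal σ) (hF : Inv s x F) {e : Fin n × Fin n}
    (he : testB σ s x F e = true) : Inv s x (place F e (slot x F e)) := by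
  obtain ⟨h1, h2, h3, h4⟩ := test_spec σ hσ hF he
  rcases place_spec hF e with ⟨i, h5, h6, h7⟩ | ⟨h5, _, _⟩
  · rw [h5]
    have key : ∀ j f, Function.update F i (some e) j = some f →
        (j = i ∧ f = e) ∨ (j ≠ i ∧ F j = some f) := by
      intro j f hf
      by_cases hj : j = i
      · subst hj
        rw [Function.update_self, Option.some.injEq] at hf
        exact Or.inl ⟨rfl, hf.symm⟩
      · rw [Function.update_of_ne hj] at hf
        exact Or.inr ⟨hj, hf⟩
    refine ⟨?_, ?_, ?_, ?_⟩
    · intro j f hf
      rcases key j f hf with ⟨_, rfl⟩ | ⟨_, hf⟩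
      · exact h1
      · exact hF.arc j f hf
    · intro j f hf
      rcases key j f hf with ⟨_, rfl⟩ | ⟨_, hf⟩
      · exact h2
      · exact hF.opn j f hf
    · intro j f hf
      rcases key j f hf with ⟨_, rfl⟩ | ⟨_, hf⟩
      · exact h4
      · exact hF.rch j f hf
    · intro j j' f f' hf hf' hd
      rcases key j f hf with ⟨rfl, rfl⟩ | ⟨hj, hg⟩
      · rcases key j' f' hf' with ⟨rfl, rfl⟩ | ⟨hj', hg'⟩
        · rfl
        · exact (h7 j' f' hg' hd).symm
      · rcases key j' f' hf' with ⟨rfl, rfl⟩ | ⟨hj', hg'⟩
        · exact absurd hd (h3 j f hg)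
        · exact hF.inc j j' f f' hg hg' hd
  · rw [h5]; exact hF

theorem inv_upd (hσ : Universal σ) (hF : Inv s x F) : Inv s x (upd σ s x F) := by
  unfold upd
  cases h0 : (allPairs n).find? fun e => testB σ s x F e with
  | none => exact hF
  | some e => exact inv_place σ hσ hF (List.find?_some h0)

/-- the set of the active arcs -/
def EF (x : Fin n → Fin n → Bool) (F : St n k) : Finset (Fin n × Fin n) :=
  univ.filter fun e => memB x F e = true

theorem card_EF_lt (hσ : Universal σ) (hF : Inv s x F) (hk : imbalance x ≤ k)
    {e : Fin n × Fin n} (he : testB σ s x F e = true) :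
    (EF x F).card < (EF x (place F e (slot x F e))).card := by
  obtain ⟨h1, h2, h3, h4⟩ := test_spec σ hσ hF he
  rcases place_spec hF e with ⟨i, h5, h6, h7⟩ | ⟨_, h5, h6⟩
  · rw [h5]
    refine card_lt_card ((ssubset_iff_of_subset ?_).2 ⟨e, ?_, ?_⟩)
    · intro e' he'
      simp only [EF, mem_filter, mem_univ, true_and, memB_iff] at he' ⊢
      refine ⟨he'.1, ?_⟩
      rcases he'.2 with h8 | ⟨j, f, hf, h8⟩
      · exact Or.inl h8
      · right
        by_cases hj : j = i
        · subst hj
          exact ⟨j, e, Function.update_self .., (h6 f hf).trans h8⟩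
        · exact ⟨j, f, by rw [Function.update_of_ne hj]; exact hf, h8⟩
    · simp only [EF, mem_filter, mem_univ, true_and, memB_iff]
      exact ⟨h1, Or.inr ⟨i, e, Function.update_self .., Desc.refl e⟩⟩
    · simp only [EF, mem_filter, mem_univ, true_and, memB_iff]
      rintro ⟨_, h8 | ⟨j, f, hf, h8⟩⟩
      · exact h2 h8
      · exact h3 j f hf h8
  · exfalso
    have h7 : ∀ i, ∃ f, F i = some f := fun i => Option.ne_none_iff_exists'.1 (h5 i)
    choose f hf using h7
    have h8 := card_le_imbalance x (I := Option (Fin k)) (fun o => o.elim e f) ?_ ?_ ?_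
    · rw [Fintype.card_option, Fintype.card_fin] at h8
      omega
    · rintro (_ | i)
      · exact h1
      · exact hF.arc i _ (hf i)
    · rintro (_ | i)
      · exact h2
      · exact hF.opn i _ (hf i)
    · rintro (_ | i) (_ | j) hd
      · rfl
      · exact absurd hd (h6 j _ (hf j))
      · exact absurd hd (h3 i _ (hf i))
      · exact congrArg some (hF.inc i j _ _ (hf i) (hf j) hd)

/-- After the last step no arc passes the test. -/
theorem run_spec (hσ : Universal σ) (hk : imbalance x ≤ k) :
    Inv s x (run σ s x k) ∧ ∀ e, testB σ s x (run σ s x k) e = false := by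
  let G : ℕ → St n k := fun m => (fun F => upd σ s x F)^[m] fun _ => none
  have hG : ∀ m, G (m + 1) = upd σ s x (G m) := fun m => Function.iterate_succ_apply' _ _ _
  have hinv : ∀ m, Inv s x (G m) := by
    intro m
    induction m with
    | zero =>
      refine ⟨?_, ?_, ?_, ?_⟩
      · intro i f hf; simp [G] at hf
      · intro i f hf; simp [G] at hf
      · intro i f hf; simp [G] at hf
      · intro i j f f' hf; simp [G] at hf
    | succ m ih => rw [hG]; exact inv_upd σ hσ ih
  refine ⟨hinv _, ?_⟩
  -- some earlier state is final
  have hfin : ∃ m ≤ n * n, ∀ e, testB σ s x (G m) e = false := by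
    by_contra hc
    push Not at hc
    have hcard : ∀ m ≤ n * n + 1, m ≤ (EF x (G m)).card := by
      intro m hm
      induction m with
      | zero => exact Nat.zero_le _
      | succ m ih =>
        have h1 := ih (by omega)
        obtain ⟨e, he⟩ := hc m (by omega)
        replace he : testB σ s x (G m) e = true := by simpa using he
        have h2 : (EF x (G m)).card < (EF x (G (m + 1))).card := by
          rw [hG]
          unfold upd
          cases h0 : (allPairs n).find? fun e => testB σ s x (G m) e with
          | none =>
            rw [List.find?_eq_none] at h0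
            exact absurd he (h0 e (mem_allPairs e))
          | some e' => exact card_EF_lt σ hσ (hinv m) hk (List.find?_some h0)
        omega
    have h1 := hcard (n * n + 1) le_rfl
    have h2 : (EF x (G (n * n + 1))).card ≤ n * n := by
      refine (card_le_univ _).trans ?_
      simp
    omega
  obtain ⟨m, hm, hfix⟩ := hfin
  have hst : ∀ d, G (m + d) = G m := by
    intro d
    induction d with
    | zero => rfl
    | succ d ih =>
      rw [← Nat.add_assoc, hG, ih]
      unfold upd
      have h0 : (allPairs n).find? (fun e => testB σ s x (G m) e) = none := by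
        rw [List.find?_eq_none]
        intro e _
        rw [hfix e]
        simp
      rw [h0]
      rfl
  obtain ⟨d, hd⟩ := Nat.exists_eq_add_of_le (show m ≤ n * n + 1 by omega)
  intro e
  have h1 : run σ s x k = G m := by
    have : run σ s x k = G (n * n + 1) := rfl
    rw [this, hd, hst]
  rw [h1]
  exact hfix e

/-- **Correctness of the algorithm.** -/
theorem run_correct (hσ : Universal σ) (hk : imbalance x ≤ k) (t : Fin n) :
    inC σ s x (run σ s x k) t = true ↔ Reach x s t := by
  obtain ⟨hinv, hfin⟩ := run_spec (s := s) σ hσ hk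
  rw [inC_iff σ s hσ]
  refine ⟨reach_of_conn hinv, fun h => ?_⟩
  induction h with
  | refl => exact Relation.ReflTransGen.refl
  | @tail b c _ hbc ih =>
    refine ih.tail ?_
    have h1 := hfin (b, c)
    by_contra h2
    unfold actB at h2
    rw [Bool.or_eq_true] at h2
    push Not at h2
    have h3 : testB σ s x (run σ s x k) (b, c) = true := by
      unfold testB
      rw [Bool.and_eq_true, Bool.and_eq_true, Bool.not_eq_true', inC_iff σ s hσ]
      exact ⟨hbc, by simpa using h2.1, ih⟩
    rw [h1] at h3
    simp at h3

end Pool.Agent.L5helper52.Imb
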