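import Pool.Agent.L5helper52.Imb.Defs

set_option autoImplicit false

/-!
# A calculus for functions computed by branching programs of bounded size and time
-/

namespace Pool.Agent.L5helper52.Imb

open Finset

variable {ι α β γ : Type}

/-- The function `f` is computed by a branching program with at most `S` nodes in time `T`. -/
def Comp (S T : ℕ) (f : (ι → Bool) → α) : Prop :=
  ∃ B : BP ι α, B.size ≤ S ∧ ∀ x, B.Answers x T (f x)

theorem iterate_inr (B : BP ι α) (x : ι → Bool) (a : α) (T : ℕ) :
    (B.step x)^[T] (Sum.inr a) = Sum.inr a := by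
  induction T with
  | zero => rfl
  | succ T ih => rw [Function.iterate_succ_apply]; exact ih

theorem Comp.mono {S T S' T' : ℕ} {f : (ι → Bool) → α} (h : Comp S T f) (hS : S ≤ S')
    (hT : T ≤ T') : Comp S' T' f := by
  obtain ⟨B, h1, h2⟩ := h
  refine ⟨B, h1.trans hS, fun x => ?_⟩
  have h3 := h2 x
  unfold BP.Answers at h3 ⊢
  obtain ⟨d, rfl⟩ := Nat.exists_eq_add_of_le hT
  rw [Nat.add_comm, Function.iterate_add_apply, h3, iterate_inr]

theorem Comp.cast {S T S' T' : ℕ} {f g : (ι → Bool) → α} (h : Comp S T f) (hS : S ≤ S')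
    (hT : T ≤ T') (hfg : ∀ x, f x = g x) : Comp S' T' g := by
  have : f = g := funext hfg
  exact this ▸ h.mono hS hT

theorem comp_pure (a : α) : Comp 0 0 (fun _ : ι → Bool => a) := by
  refine ⟨⟨Fin 0, inferInstance, fun i => i.elim0, fun i => i.elim0, fun i => i.elim0,
    fun i => i.elim0, Sum.inr a⟩, ?_, fun x => rfl⟩
  simp [BP.size]

theorem comp_query (i : ι) : Comp 1 1 (fun x : ι → Bool => x i) := by
  refine ⟨⟨Unit, inferInstance, fun _ => i, fun _ b => Sum.inr b, fun _ => 0, ?_, Sum.inl ()⟩,
    ?_, fun x => rfl⟩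
  · intro _ _ _ h; simp at h
  · simp [BP.size]

section Bind

variable (B : BP ι α) (C : α → BP ι β)

/-- the embedding of the programs which come second -/
def emb2 (a : α) : (C a).N ⊕ β → (B.N ⊕ (Σ a, (C a).N)) ⊕ β
  | Sum.inl i => Sum.inl (Sum.inr ⟨a, i⟩)
  | Sum.inr b => Sum.inr b

/-- the embedding of the first program -/
def emb1 : B.N ⊕ α → (B.N ⊕ (Σ a, (C a).N)) ⊕ β
  | Sum.inl i => Sum.inl (Sum.inl i)
  | Sum.inr a => emb2 B C a (C a).start

/-- composition of programs -/
def bindBP [Fintype α] : BP ι β where
  N := B.N ⊕ (Σ a, (C a).N)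
  fin := by
    haveI := B.fin
    haveI := fun a => (C a).fin
    infer_instance
  query := Sum.elim B.query fun p => (C p.1).query p.2
  next := fun i b => match i with
    | Sum.inl i => emb1 B C (B.next i b)
    | Sum.inr p => emb2 B C p.1 ((C p.1).next p.2 b)
  rank := Sum.elim B.rank fun p =>
    (letI := B.fin; ∑ i, B.rank i) + 1 + (C p.1).rank p.2
  acyclic := by
    let _ := B.fin
    rintro (i | ⟨a, i⟩) b (j | ⟨a', j⟩) h
    · simp only at h
      rcases h0 : B.next i b with j' | a
      · rw [h0] at h
        simp only [emb1, Sum.inl.injEq] at h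
        subst h
        exact B.acyclic i b _ h0
      · rw [h0] at h
        simp only [emb1] at h
        rcases h1 : (C a).start with j' | b'
        · rw [h1] at h; simp [emb2] at h
        · rw [h1] at h; simp [emb2] at h
    · simp only [Sum.elim_inl, Sum.elim_inr]
      have : B.rank i ≤ ∑ i, B.rank i := single_le_sum (f := B.rank) (fun _ _ => Nat.zero_le _)
        (mem_univ i)
      omega
    · simp only at h
      rcases h0 : (C a).next i b with j' | b'
      · rw [h0] at h; simp [emb2] at h
      · rw [h0] at h; simp [emb2] at h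
    · simp only at h
      rcases h0 : (C a).next i b with j' | b'
      · rw [h0] at h
        simp only [emb2, Sum.inl.injEq, Sum.inr.injEq, Sigma.mk.injEq] at h
        obtain ⟨h1, h2⟩ := h
        subst h1
        rw [heq_eq_eq] at h2
        subst h2
        have := (C a).acyclic i b _ h0
        simp only [Sum.elim_inr]
        omega
      · rw [h0] at h; simp [emb2] at h
  start := emb1 B C B.start

variable [Fintype α]

theorem bind_step1 (x : ι → Bool) (i : B.N) :
    (bindBP B C).step x (emb1 B C (Sum.inl i)) = emb1 B C (B.step x (Sum.inl i)) := rfl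

theorem bind_step2 (x : ι → Bool) (a : α) (v : (C a).N ⊕ β) :
    (bindBP B C).step x (emb2 B C a v) = emb2 B C a ((C a).step x v) := by
  rcases v with i | b <;> rfl

theorem bind_iter2 (x : ι → Bool) (a : α) (T : ℕ) (v : (C a).N ⊕ β) :
    ((bindBP B C).step x)^[T] (emb2 B C a v) = emb2 B C a (((C a).step x)^[T] v) := by
  induction T generalizing v with
  | zero => rfl
  | succ T ih =>
    exact (congrArg (((bindBP B C).step x)^[T]) (bind_step2 B C x a v)).trans (ih _)

theorem bind_iter1 (x : ι → Bool) (a : α) (T : ℕ) (v : B.N ⊕ α)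
    (h : (B.step x)^[T] v = Sum.inr a) :
    ∃ t ≤ T, ((bindBP B C).step x)^[t] (emb1 B C v) = emb2 B C a (C a).start := by
  induction T generalizing v with
  | zero =>
    refine ⟨0, le_rfl, ?_⟩
    have : v = Sum.inr a := h
    rw [this]
    rfl
  | succ T ih =>
    rcases v with i | a'
    · rw [Function.iterate_succ_apply] at h
      obtain ⟨t, ht, h1⟩ := ih _ h
      exact ⟨t + 1, by omega,
        (congrArg (((bindBP B C).step x)^[t]) (bind_step1 B C x i)).trans h1⟩
    · rw [iterate_inr] at h
      rw [Sum.inr.injEq] at h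
      subst h
      exact ⟨0, Nat.zero_le _, rfl⟩

theorem bind_answers {x : ι → Bool} {T1 T2 : ℕ} {a : α} {b : β} (h1 : B.Answers x T1 a)
    (h2 : (C a).Answers x T2 b) : (bindBP B C).Answers x (T1 + T2) b := by
  obtain ⟨t, ht, h3⟩ := bind_iter1 B C x a T1 B.start h1
  unfold BP.Answers at h2 ⊢
  have h4 : T1 + T2 = ((T1 - t) + T2) + t := by omega
  rw [h4, Function.iterate_add_apply]
  have h5 : ((bindBP B C).step x)^[t] (bindBP B C).start = emb2 B C a (C a).start := h3
  rw [h5, bind_iter2, Function.iterate_add_apply, h2, iterate_inr]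
  rfl

theorem bind_size : (bindBP B C).size = B.size + ∑ a, (C a).size := by
  let _ := B.fin
  let _ := fun a => (C a).fin
  have h : (bindBP B C).size = Fintype.card (B.N ⊕ (Σ a, (C a).N)) := by
    unfold BP.size bindBP
    congr!
  rw [h, Fintype.card_sum, Fintype.card_sigma]
  rfl

end Bind

theorem Comp.bind [Fintype α] {S1 T1 T2 : ℕ} {S2 : α → ℕ} {f : (ι → Bool) → α}
    {g : α → (ι → Bool) → β} (hf : Comp S1 T1 f) (hg : ∀ a, Comp (S2 a) T2 (g a)) :
    Comp (S1 + ∑ a, S2 a) (T1 + T2) (fun x => g (f x) x) := by
  obtain ⟨B, h1, h2⟩ := hf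
  choose C h3 h4 using hg
  refine ⟨bindBP B C, ?_, fun x => bind_answers B C (h2 x) (h4 _ x)⟩
  rw [bind_size]
  exact add_le_add h1 (sum_le_sum fun a _ => h3 a)

theorem Comp.bind' [Fintype α] {S1 T1 S2 T2 : ℕ} {f : (ι → Bool) → α}
    {g : α → (ι → Bool) → β} (hf : Comp S1 T1 f) (hg : ∀ a, Comp S2 T2 (g a)) :
    Comp (S1 + Fintype.card α * S2) (T1 + T2) (fun x => g (f x) x) := by
  have := hf.bind hg
  simpa using this

theorem Comp.map [Fintype α] {S T : ℕ} {f : (ι → Bool) → α} (hf : Comp S T f) (φ : α → β) :
    Comp S T (fun x => φ (f x)) := by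
  have := hf.bind' (g := fun a _ => φ a) (fun a => comp_pure (φ a))
  simpa using this

theorem Comp.ite {S1 T1 S2 S3 T2 : ℕ} {p : (ι → Bool) → Bool} {f g : (ι → Bool) → α}
    (hp : Comp S1 T1 p) (hf : Comp S2 T2 f) (hg : Comp S3 T2 g) :
    Comp (S1 + (S2 + S3)) (T1 + T2) (fun x => if p x = true then f x else g x) := by
  have h := hp.bind (S2 := fun b => if b = true then S2 else S3) (T2 := T2)
    (g := fun b x => if b = true then f x else g x) (by
      intro b
      cases b
      · simpa using hg
      · simpa using hf)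
  simpa using h

theorem Comp.and {S1 T1 S2 T2 : ℕ} {p q : (ι → Bool) → Bool}
    (hp : Comp S1 T1 p) (hq : Comp S2 T2 q) :
    Comp (S1 + S2) (T1 + T2) (fun x => p x && q x) :=
  (hp.ite hq ((comp_pure false).mono (Nat.zero_le 0) (Nat.zero_le T2))).cast (by omega) le_rfl
    fun x => by cases p x <;> simp

theorem Comp.or {S1 T1 S2 T2 : ℕ} {p q : (ι → Bool) → Bool}
    (hp : Comp S1 T1 p) (hq : Comp S2 T2 q) :
    Comp (S1 + S2) (T1 + T2) (fun x => p x || q x) :=
  (hp.ite ((comp_pure true).mono (Nat.zero_le 0) (Nat.zero_le T2)) hq).cast (by omega) le_rfl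
    fun x => by cases p x <;> simp

theorem Comp.not {S T : ℕ} {p : (ι → Bool) → Bool} (hp : Comp S T p) :
    Comp S T (fun x => ! p x) := hp.map _

theorem comp_find {S T : ℕ} (L : List γ) (p : γ → (ι → Bool) → Bool)
    (hp : ∀ c, Comp S T (p c)) :
    Comp (L.length * S) (L.length * T) (fun x => L.find? fun c => p c x) := by
  induction L with
  | nil => simpa using comp_pure (ι := ι) (none : Option γ)
  | cons c L ih =>
    refine ((hp c).ite ((comp_pure (some c)).mono (Nat.zero_le 0) (Nat.zero_le _)) ih).cast
      ?_ ?_ ?_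
    · simp only [List.length_cons, Nat.succ_mul]; omega
    · simp only [List.length_cons, Nat.succ_mul]; omega
    · intro x
      rw [List.find?_cons]
      cases p c x <;> simp

theorem comp_any {S T : ℕ} (L : List γ) (p : γ → (ι → Bool) → Bool)
    (hp : ∀ c, Comp S T (p c)) :
    Comp (L.length * S) (L.length * T) (fun x => L.any fun c => p c x) := by
  induction L with
  | nil => simpa using comp_pure (ι := ι) false
  | cons c L ih =>
    refine ((hp c).or ih).cast ?_ ?_ ?_
    · simp only [List.length_cons, Nat.succ_mul]; omega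
    · simp only [List.length_cons, Nat.succ_mul]; omega
    · intro x
      rw [List.any_cons]

theorem comp_all {S T : ℕ} (L : List γ) (p : γ → (ι → Bool) → Bool)
    (hp : ∀ c, Comp S T (p c)) :
    Comp (L.length * S) (L.length * T) (fun x => L.all fun c => p c x) := by
  induction L with
  | nil => simpa using comp_pure (ι := ι) true
  | cons c L ih =>
    refine ((hp c).and ih).cast ?_ ?_ ?_
    · simp only [List.length_cons, Nat.succ_mul]; omega
    · simp only [List.length_cons, Nat.succ_mul]; omega
    · intro x
      rw [List.all_cons]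

theorem comp_foldl [Fintype α] {S T : ℕ} (L : List γ) (h : γ → α → (ι → Bool) → α)
    (hh : ∀ c a, Comp S T (h c a)) (a0 : α) :
    Comp (L.length * (Fintype.card α * S)) (L.length * T)
      (fun x => L.foldl (fun a c => h c a x) a0) := by
  induction L using List.reverseRecOn with
  | nil => simpa using comp_pure (ι := ι) a0
  | append_singleton L c ih =>
    refine (ih.bind' (hh c)).cast ?_ ?_ ?_
    · rw [List.length_append, List.length_singleton, Nat.succ_mul]
    · rw [List.length_append, List.length_singleton, Nat.succ_mul]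
    · intro x
      rw [List.foldl_append]
      rfl

theorem comp_iterate [Fintype α] {S T : ℕ} (m : ℕ) (h : α → (ι → Bool) → α)
    (hh : ∀ a, Comp S T (h a)) (a0 : α) :
    Comp (m * (Fintype.card α * S)) (m * T) (fun x => (fun a => h a x)^[m] a0) := by
  induction m with
  | zero => simpa using comp_pure (ι := ι) a0
  | succ m ih =>
    refine (ih.bind' hh).cast ?_ ?_ ?_
    · rw [Nat.succ_mul]
    · rw [Nat.succ_mul]
    · intro x
      rw [Function.iterate_succ_apply']

/-- the number `c`, at most `N` -/
def clip (N c : ℕ) : Fin (N + 1) := ⟨min N c, by omega⟩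

/-- counting the ones among the entries in a list -/
theorem comp_count (N : ℕ) (L : List ι) :
    Comp (L.length * (N + 1)) L.length (fun x => clip N (L.countP fun q => x q)) := by
  have h1 := comp_foldl (α := Fin (N + 1)) (S := 1) (T := 1) L
    (fun q c x => if x q = true then clip N (c.1 + 1) else c)
    (fun q c => by
      have := (comp_query q).ite (comp_pure (ι := ι) (clip N (c.1 + 1)))
        (comp_pure c)
      simpa using this) (clip N 0)
  simp only [Fintype.card_fin, mul_one] at h1
  refine h1.cast le_rfl le_rfl fun x => ?_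
  clear h1
  induction L using List.reverseRecOn with
  | nil => simp
  | append_singleton L c ih =>
    rw [List.foldl_append, ih, List.countP_append]
    simp only [List.foldl_cons, List.foldl_nil]
    by_cases hx : x c = true
    · simp only [clip, hx, if_true, Fin.mk.injEq, List.countP_singleton]
      omega
    · simp [hx]

end Pool.Agent.L5helper52.Imb
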