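import Pool.Agent.L5helper52.Imb.Defs

set_option autoImplicit false

/-!
# Closed sets with few entries, imbalance, edit distance
-/

namespace Pool.Agent.L5helper52.Imb

open Finset

variable {V : Type}

/-- `a` and `b` are connected by an undirected path whose edges are arcs of `x` (used in any
direction) with tail outside `T`: connectivity in the undirected graph which underlies the digraph
obtained from `x` by deleting all arcs with tail in `T`. -/
def Conn (x : V → V → Bool) (T : Set V) : V → V → Prop :=
  Relation.EqvGen fun a b => a ∉ T ∧ x a b = true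

theorem conn_mem {x : V → V → Bool} {T Y : Set V} (hY : Closed x Y) (hT : entries x Y ⊆ T)
    {a b : V} (h : Conn x T a b) : a ∈ Y ↔ b ∈ Y := by
  induction h with
  | rel a b h =>
    refine ⟨fun ha => hY a b ha h.2, fun hb => ?_⟩
    by_contra ha
    exact h.1 (hT ⟨ha, b, hb, h.2⟩)
  | refl a => exact Iff.rfl
  | symm a b _ ih => exact ih.symm
  | trans a b c _ _ ih1 ih2 => exact ih1.trans ih2

/-- The `k`-th level problem in terms of undirected connectivity. -/
theorem level_iff [Finite V] (x : V → V → Bool) (k : ℕ) (s t : V) :
    (∀ Y : Set V, s ∈ Y → Closed x Y → (entries x Y).ncard ≤ k → t ∈ Y) ↔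
      ∀ c : Fin k → V, ∃ v, (v = t ∨ v ∈ Set.range c) ∧ Conn x (Set.range c) s v := by
  classical
  constructor
  · intro H c
    by_contra hc
    push Not at hc
    have h1 : t ∈ {v | Conn x (Set.range c) s v} := by
      apply H
      · exact Relation.EqvGen.refl s
      · intro a b ha hab
        refine Relation.EqvGen.trans _ _ _ ha (Relation.EqvGen.rel _ _ ⟨fun h => ?_, hab⟩)
        exact hc a (Or.inr h) ha
      · have hsub : entries x {v | Conn x (Set.range c) s v} ⊆ Set.range c := by
          rintro a ⟨ha, b, hb, hab⟩
          by_contra hac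
          exact ha (Relation.EqvGen.trans _ _ _ hb
            (Relation.EqvGen.symm _ _ (Relation.EqvGen.rel _ _ ⟨hac, hab⟩)))
        refine (Set.ncard_le_ncard hsub (Set.toFinite _)).trans ?_
        rw [← Set.image_univ]
        refine (Set.ncard_image_le (Set.toFinite _)).trans ?_
        simp
    exact hc t (Or.inl rfl) h1
  · intro H Y hs hY hk
    by_contra ht
    -- a function whose range contains the entries and which avoids `Y`
    obtain ⟨c, hc1, hc2⟩ : ∃ c : Fin k → V, entries x Y ⊆ Set.range c ∧ Set.range c ⊆ Yᶜ := by
      have hfin : (entries x Y).Finite := Set.toFinite _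
      obtain ⟨e⟩ : Nonempty (Fin (entries x Y).ncard ≃ entries x Y) := by
        have h1 : Nat.card (entries x Y) = (entries x Y).ncard := rfl
        exact ⟨(Finite.equivFinOfCardEq h1).symm⟩
      refine ⟨fun i => if h : i.1 < (entries x Y).ncard then (e ⟨i.1, h⟩).1 else t, ?_, ?_⟩
      · intro a ha
        refine ⟨⟨(e.symm ⟨a, ha⟩).1, (e.symm ⟨a, ha⟩).2.trans_le hk⟩, ?_⟩
        simp
      · rintro _ ⟨i, rfl⟩
        dsimp only
        split_ifs with h
        · exact (e ⟨i.1, h⟩).2.1
        · exact ht
    obtain ⟨v, hv, hsv⟩ := H c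
    have h1 := (conn_mem hY hc1 hsv).1 hs
    rcases hv with rfl | hv
    · exact ht h1
    · exact hc2 hv h1

/-- If few arcs enter the set of the vertices which can be reached, then the level problem is the
reachability problem. -/
theorem reach_iff (x : V → V → Bool) (k : ℕ) (s t : V)
    (hk : (entries x {v | Reach x s v}).ncard ≤ k) :
    (∀ Y : Set V, s ∈ Y → Closed x Y → (entries x Y).ncard ≤ k → t ∈ Y) ↔ Reach x s t := by
  constructor
  · intro H
    exact H {v | Reach x s v} Relation.ReflTransGen.refl (fun a b ha hab => ha.tail hab) hk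
  · intro h Y hs hY _
    induction h with
    | refl => exact hs
    | tail _ hbc ih => exact hY _ _ ih hbc

theorem level_of_reach (x : V → V → Bool) (k : ℕ) (s t : V) (h : Reach x s t) :
    ∀ Y : Set V, s ∈ Y → Closed x Y → (entries x Y).ncard ≤ k → t ∈ Y := by
  intro Y hs hY _
  induction h with
  | refl => exact hs
  | tail _ hbc ih => exact hY _ _ ih hbc

/-- A closed set has at most as many entries as the imbalance. -/
theorem entries_le_imbalance [Fintype V] (x : V → V → Bool) (Y : Set V) (hY : Closed x Y) :
    (entries x Y).ncard ≤ imbalance x := by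
  classical
  -- the arcs from outside into `Y`, by tail
  let e : V → ℕ := fun w => (univ.filter fun v => v ∈ Y ∧ x w v = true).card
  let Z : Finset V := univ.filter fun v => v ∉ Y
  have h1 : (entries x Y).ncard ≤ ∑ w ∈ Z, e w := by
    have h2 : entries x Y ⊆ ((Z.filter fun w => 1 ≤ e w : Finset V) : Set V) := by
      rintro a ⟨ha, b, hb, hab⟩
      simp only [Z, e, coe_filter, mem_filter, mem_univ, true_and, Set.mem_ofPred_eq]
      exact ⟨ha, card_pos.2 ⟨b, by simp [hb, hab]⟩⟩
    calc (entries x Y).ncard ≤ ((Z.filter fun w => 1 ≤ e w : Finset V) : Set V).ncard :=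
          Set.ncard_le_ncard h2 (Set.toFinite _)
      _ = (Z.filter fun w => 1 ≤ e w).card := Set.ncard_coe_finset _
      _ = ∑ w ∈ Z.filter fun w => 1 ≤ e w, 1 := by simp
      _ ≤ ∑ w ∈ Z.filter fun w => 1 ≤ e w, e w := sum_le_sum fun w hw => (mem_filter.1 hw).2
      _ ≤ ∑ w ∈ Z, e w := sum_le_sum_of_subset (filter_subset _ _)
  have hin : ∑ w ∈ Z, indeg x w = ∑ w ∈ Z, (univ.filter fun v => v ∉ Y ∧ x w v = true).card := by
    have h3 : ∀ w ∈ Z, indeg x w = ∑ v ∈ Z, if x v w = true then 1 else 0 := by
      intro w hw
      unfold indeg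
      rw [card_filter, sum_filter]
      refine sum_congr rfl fun v _ => ?_
      by_cases hv : v ∈ Y
      · have : x v w ≠ true := by
          intro h
          exact (mem_filter.1 hw).2 (hY v w hv h)
        simp [hv, this]
      · simp [hv]
    have h4 : ∀ w ∈ Z, (univ.filter fun v => v ∉ Y ∧ x w v = true).card
        = ∑ v ∈ Z, if x w v = true then 1 else 0 := by
      intro w _
      rw [card_filter, sum_filter]
      refine sum_congr rfl fun v _ => ?_
      by_cases hv : v ∈ Y <;> simp [hv]
    rw [sum_congr rfl h3, sum_congr rfl h4, sum_comm]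
  have hout : ∀ w, outdeg x w
      = (univ.filter fun v => v ∉ Y ∧ x w v = true).card + e w := by
    intro w
    unfold outdeg
    simp only [e, card_filter]
    rw [← sum_add_distrib]
    refine sum_congr rfl fun v _ => ?_
    by_cases hv : v ∈ Y <;> simp [hv]
  have h5 : ∑ w ∈ Z, outdeg x w = ∑ w ∈ Z, indeg x w + ∑ w ∈ Z, e w := by
    rw [hin, ← sum_add_distrib]
    exact sum_congr rfl fun w _ => hout w
  have h6 : ∑ w ∈ Z, outdeg x w ≤ ∑ w ∈ Z, indeg x w + ∑ w ∈ Z, (outdeg x w - indeg x w) := by
    rw [← sum_add_distrib]
    exact sum_le_sum fun w _ => by omega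
  have h7 : ∑ w ∈ Z, (outdeg x w - indeg x w) ≤ imbalance x :=
    sum_le_sum_of_subset (subset_univ _)
  omega

/-- The imbalance changes at most by the number of changed arcs. -/
theorem imbalance_le_add_editDist [Fintype V] (x y : V → V → Bool) :
    imbalance x ≤ imbalance y + editDist x y := by
  classical
  let A : V → V → ℕ := fun v w => if x v w = true ∧ y v w = false then 1 else 0
  let B : V → V → ℕ := fun v w => if x v w = false ∧ y v w = true then 1 else 0
  have hout : ∀ v, outdeg x v ≤ outdeg y v + ∑ w, A v w := by
    intro v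
    unfold outdeg
    rw [card_filter, card_filter, ← sum_add_distrib]
    refine sum_le_sum fun w _ => ?_
    simp only [A]
    cases x v w <;> cases y v w <;> simp
  have hin : ∀ v, indeg y v ≤ indeg x v + ∑ w, B w v := by
    intro v
    unfold indeg
    rw [card_filter, card_filter, ← sum_add_distrib]
    refine sum_le_sum fun w _ => ?_
    simp only [B]
    cases x w v <;> cases y w v <;> simp
  have h1 : ∀ v, outdeg x v - indeg x v
      ≤ (outdeg y v - indeg y v) + (∑ w, A v w + ∑ w, B w v) := by
    intro v
    have := hout v
    have := hin v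
    omega
  have h2 : editDist x y = ∑ v, ∑ w, (A v w + B v w) := by
    unfold editDist
    rw [card_filter, Fintype.sum_prod_type]
    refine sum_congr rfl fun v _ => sum_congr rfl fun w _ => ?_
    simp only [A, B]
    cases x v w <;> cases y v w <;> simp
  have h3 : ∑ v, (∑ w, A v w + ∑ w, B w v) = editDist x y := by
    rw [h2, sum_add_distrib]
    simp_rw [sum_add_distrib]
    congr 1
    exact sum_comm
  unfold imbalance
  rw [← h3, ← sum_add_distrib]
  exact sum_le_sum fun v _ => h1 v

/-! ### Two unbalanced vertices -/

/-- The vertices of the padded digraph: the old vertices, two new vertices for every pair of old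
vertices, and two special vertices (`false` is the source, `true` the sink). -/
abbrev Pad (V : Type) : Type := V ⊕ (V × V) ⊕ (V × V) ⊕ Bool

variable [DecidableEq V]

/-- The padded digraph: for every arc `a → b` of `x` there is the path
`source → p (a, b) → a → b → q (a, b) → sink`. -/
def pad (x : V → V → Bool) : Pad V → Pad V → Bool
  | .inr (.inr (.inr false)), .inr (.inl (a, b)) => x a b
  | .inr (.inl (a, b)), .inl c => decide (c = a) && x a b
  | .inl a, .inl b => x a b
  | .inl c, .inr (.inr (.inl (a, b))) => decide (c = b) && x a b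
  | .inr (.inr (.inl (a, b))), .inr (.inr (.inr true)) => x a b
  | _, _ => false

theorem reach_pad (x : V → V → Bool) (s t : V) :
    Reach (pad x) (.inl s) (.inl t) ↔ Reach x s t := by
  constructor
  · intro h
    have key : ∀ w : Pad V, Reach (pad x) (.inl s) w →
        (∃ v, w = .inl v ∧ Reach x s v) ∨ (∃ p, w = .inr (.inr (.inl p))) ∨
          w = .inr (.inr (.inr true)) := by
      intro w hw
      induction hw with
      | refl => exact Or.inl ⟨s, rfl, Relation.ReflTransGen.refl⟩
      | @tail b c _ hbc ih =>
        rcases ih with ⟨v, rfl, hv⟩ | ⟨p, rfl⟩ | rfl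
        · rcases c with c | c | c | c
          · exact Or.inl ⟨c, rfl, hv.tail (by simpa [pad] using hbc)⟩
          · simp [pad] at hbc
          · exact Or.inr (Or.inl ⟨c, rfl⟩)
          · simp [pad] at hbc
        · rcases c with c | c | c | c
          · simp [pad] at hbc
          · simp [pad] at hbc
          · simp [pad] at hbc
          · cases c
            · simp [pad] at hbc
            · exact Or.inr (Or.inr rfl)
        · rcases c with c | c | c | c <;> simp [pad] at hbc
    rcases key _ h with ⟨v, hv, hr⟩ | ⟨p, hp⟩ | hp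
    · rw [Sum.inl.injEq] at hv
      rw [hv]; exact hr
    · simp at hp
    · simp at hp
  · intro h
    induction h with
    | refl => exact Relation.ReflTransGen.refl
    | tail _ hbc ih => exact ih.tail (by simpa [pad] using hbc)

theorem pad_balanced [Fintype V] (x : V → V → Bool) (w : Pad V)
    (h1 : w ≠ .inr (.inr (.inr false))) (h2 : w ≠ .inr (.inr (.inr true))) :
    outdeg (pad x) w = indeg (pad x) w := by
  unfold outdeg indeg
  rw [card_filter, card_filter]
  simp only [Fintype.sum_sum_type, Fintype.sum_prod_type, Fintype.sum_bool]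
  rcases w with c | ⟨a, b⟩ | ⟨a, b⟩ | b
  · simp only [pad, Bool.and_eq_true, decide_eq_true_eq, Bool.false_eq_true, if_false, ite_and,
      sum_const_zero, add_zero, zero_add]
    have e1 : ∀ y : V, (∑ z : V, if c = z then (if x y z = true then 1 else 0) else 0)
        = if x y c = true then 1 else 0 := by intro y; simp
    have e2 : (∑ y : V, ∑ z : V, if c = y then (if x y z = true then 1 else 0) else 0)
        = ∑ z : V, if x c z = true then 1 else 0 := by
      rw [sum_comm]; simp
    simp_rw [e1, e2]
    rw [Nat.add_comm]
    congr 1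
  · by_cases h : x a b = true <;> simp [pad, h]
  · by_cases h : x a b = true <;> simp [pad, h]
  · cases b
    · exact absurd rfl h1
    · exact absurd rfl h2

/-- Every entry of the padded matrix is an entry of the given matrix or always `false`. -/
theorem pad_projection (a b : Pad V) :
    (∃ c d : V, ∀ x : V → V → Bool, pad x a b = x c d) ∨ (∀ x : V → V → Bool, pad x a b = false) := by
  rcases a with a | ⟨a, a'⟩ | ⟨a, a'⟩ | a <;> rcases b with b | ⟨b, b'⟩ | ⟨b, b'⟩ | b
  · exact Or.inl ⟨a, b, fun x => rfl⟩
  · exact Or.inr fun x => rfl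
  · by_cases h : a = b'
    · exact Or.inl ⟨b, b', fun x => by simp [pad, h]⟩
    · exact Or.inr fun x => by simp [pad, h]
  · exact Or.inr fun x => by simp [pad]
  · by_cases h : b = a
    · exact Or.inl ⟨a, a', fun x => by simp [pad, h]⟩
    · exact Or.inr fun x => by simp [pad, h]
  · exact Or.inr fun x => rfl
  · exact Or.inr fun x => rfl
  · exact Or.inr fun x => rfl
  · exact Or.inr fun x => rfl
  · exact Or.inr fun x => rfl
  · exact Or.inr fun x => rfl
  · cases b
    · exact Or.inr fun x => rfl
    · exact Or.inl ⟨a, a', fun x => rfl⟩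
  · cases a <;> exact Or.inr fun x => rfl
  · cases a
    · exact Or.inl ⟨b, b', fun x => rfl⟩
    · exact Or.inr fun x => rfl
  · cases a <;> exact Or.inr fun x => rfl
  · cases a <;> exact Or.inr fun x => rfl

end Pool.Agent.L5helper52.Imb
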