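import Pool.Agent.L5helper52.Imb.Algo
import Pool.Agent.L5helper52.Imb.Comp
import Pool.Agent.L5helper52.Imb.Cut

set_option autoImplicit false

/-!
# Size and time
-/

namespace Pool.Agent.L5helper52.Imb

open Finset

variable {n : ℕ}

/-- the adjacency matrix which is given by the input -/
abbrev mat (z : Fin n × Fin n → Bool) : Fin n → Fin n → Bool := fun a b => z (a, b)

theorem comp_entry (a b : Fin n) : Comp 1 1 (fun z => mat z a b) := comp_query (a, b)

/-! ### Walks -/

theorem comp_walk {S T : ℕ} (A : (Fin n × Fin n → Bool) → Fin n → Fin n → Bool)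
    (hA : ∀ a b, Comp S T (fun z => A z a b)) (D : Fin n → Bool) (s : Fin n) (σ : List (Fin n)) :
    Comp (σ.length * (n * 2 * S)) (σ.length * T) (fun z => walkB (A z) D s σ) := by
  have h := comp_foldl (α := Fin n × Bool) (S := S) (T := T) σ
    (fun a p z => (stepTo (A z) p.1 a, p.2 || D (stepTo (A z) p.1 a)))
    (fun a p => (hA p.1 a).map fun b =>
      ((if b = true then a else p.1), p.2 || D (if b = true then a else p.1))) (s, D s)
  have h' := h.map fun p => p.2
  refine h'.cast ?_ le_rfl fun z => rfl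
  simp

/-! ### Counting the neighbours -/

theorem countP_eq_card (p : Fin n → Bool) :
    (List.finRange n).countP p = (univ.filter fun i => p i = true).card := by
  rw [List.countP_eq_length_filter,
    ← List.toFinset_card_of_nodup ((List.nodup_finRange n).filter _)]
  congr 1
  ext i
  simp

theorem comp_cin (v a : Fin n) : Comp (n * (n + 1)) n (fun z => clip n (cin (mat z) v a)) := by
  have h := comp_count (ι := Fin n × Fin n) n
    (((List.finRange n).filter fun c => decide (c < a)).map fun c => (c, v))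
  have hl : (((List.finRange n).filter fun c => decide (c < a)).map fun c => (c, v)).length ≤ n := by
    rw [List.length_map]
    refine (List.length_filter_le _ _).trans ?_
    rw [List.length_finRange]
  refine h.cast (Nat.mul_le_mul_right _ hl) hl fun z => ?_
  rw [List.countP_map, List.countP_filter, countP_eq_card]
  unfold cin
  congr 2
  ext c
  simp [and_comm]

theorem comp_cout (v b : Fin n) : Comp (n * (n + 1)) n (fun z => clip n (cout (mat z) v b)) := by
  have h := comp_count (ι := Fin n × Fin n) n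
    (((List.finRange n).filter fun c => decide (c < b)).map fun c => (v, c))
  have hl : (((List.finRange n).filter fun c => decide (c < b)).map fun c => (v, c)).length ≤ n := by
    rw [List.length_map]
    refine (List.length_filter_le _ _).trans ?_
    rw [List.length_finRange]
  refine h.cast (Nat.mul_le_mul_right _ hl) hl fun z => ?_
  rw [List.countP_map, List.countP_filter, countP_eq_card]
  unfold cout
  congr 2
  ext c
  simp [and_comm]

theorem clip_inj {N a b : ℕ} (ha : a ≤ N) (hb : b ≤ N) : clip N a = clip N b ↔ a = b := by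
  simp only [clip, Fin.mk.injEq]
  omega

/-- size for `nxa` -/
def sNx (n : ℕ) : ℕ := 1 + (n * (n + 1) + (n + 1) * (n * (1 + n * (n + 1))))

/-- time for `nxa` -/
def tNx (n : ℕ) : ℕ := 1 + (n + n * (1 + n))

theorem comp_nxa (e : Fin n × Fin n) : Comp (sNx n) (tNx n) (fun z => nxa (mat z) e) := by
  have h1 : ∀ r : Fin (n + 1), Comp (n * (1 + n * (n + 1))) (n * (1 + n))
      (fun z : Fin n × Fin n → Bool => ((List.finRange n).find? fun b => mat z e.2 b &&
        (clip n (cout (mat z) e.2 b) == r)).map fun b => (e.2, b)) := by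
    intro r
    have h2 := comp_find (S := 1 + n * (n + 1)) (T := 1 + n) (List.finRange n)
      (fun b (z : Fin n × Fin n → Bool) => mat z e.2 b && (clip n (cout (mat z) e.2 b) == r))
      (fun b => (comp_entry e.2 b).and ((comp_cout e.2 b).map fun c => c == r))
    rw [List.length_finRange] at h2
    exact h2.map fun o => o.map fun b => (e.2, b)
  have h3 := (comp_cin e.2 e.1).bind' h1
  rw [Fintype.card_fin] at h3
  have h4 := (comp_entry e.1 e.2).ite h3
    ((comp_pure (none : Option (Fin n × Fin n))).mono (Nat.zero_le 0) (Nat.zero_le _))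
  refine h4.cast ?_ ?_ fun z => ?_
  · unfold sNx; omega
  · unfold tNx; omega
  · unfold nxa
    have h5 : ∀ b, (clip n (cout (mat z) e.2 b) == clip n (cin (mat z) e.2 e.1))
        = (cout (mat z) e.2 b == cin (mat z) e.2 e.1) := by
      intro b
      rw [Bool.eq_iff_iff, beq_iff_eq, beq_iff_eq]
      exact clip_inj (cout_le _ _ _) (cin_le _ _ _)
    simp only [h5]

theorem comp_itO (e : Fin n × Fin n) (j m : ℕ) (hj : j ≤ m) :
    Comp (m * ((n * n + 1) * sNx n)) (m * tNx n) (fun z => itO (nxa (mat z)) j e) := by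
  have h := comp_iterate (α := Option (Fin n × Fin n)) (S := sNx n) (T := tNx n) j
    (fun o (z : Fin n × Fin n → Bool) => o.bind (nxa (mat z))) (fun o => by
      cases o with
      | none => exact (comp_pure none).mono (Nat.zero_le _) (Nat.zero_le _)
      | some e => exact comp_nxa e) (some e)
  rw [Fintype.card_option, Fintype.card_prod, Fintype.card_fin] at h
  exact h.cast (Nat.mul_le_mul_right _ hj) (Nat.mul_le_mul_right _ hj) fun z => rfl

/-- size for `descB` -/
def sDe (n : ℕ) : ℕ := n * n * (n * n * ((n * n + 1) * sNx n))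

/-- time for `descB` -/
def tDe (n : ℕ) : ℕ := n * n * (n * n * tNx n)

theorem comp_descB (e f : Fin n × Fin n) :
    Comp (sDe n) (tDe n) (fun z => descB (mat z) e f) := by
  have h := comp_any (S := n * n * ((n * n + 1) * sNx n)) (T := n * n * tNx n)
    (List.finRange (n * n))
    (fun j (z : Fin n × Fin n → Bool) => itO (nxa (mat z)) j.1 e == some f)
    (fun j => (comp_itO e j.1 (n * n) j.2.le).map fun o => o == some f)
  rw [List.length_finRange] at h
  exact h

theorem comp_closedB (e : Fin n × Fin n) :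
    Comp (sDe n) (tDe n) (fun z => closedB (mat z) e) := by
  have h := comp_any (S := n * n * ((n * n + 1) * sNx n)) (T := n * n * tNx n)
    (List.finRange (n * n))
    (fun j (z : Fin n × Fin n → Bool) => itO (nxa (mat z)) (j.1 + 1) e == some e)
    (fun j => (comp_itO e (j.1 + 1) (n * n) j.2).map fun o => o == some e)
  rw [List.length_finRange] at h
  exact h

variable {k : ℕ}

theorem comp_atPlace {S T : ℕ} (F : St n k) (i : Fin k)
    (p : Fin n × Fin n → (Fin n × Fin n → Bool) → Bool) (hp : ∀ f, Comp S T (p f)) :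
    Comp S T (fun z => atPlace F i fun f => p f z) := by
  unfold atPlace
  cases F i with
  | none => exact (comp_pure false).mono (Nat.zero_le _) (Nat.zero_le _)
  | some f => exact hp f

/-- size for `memB` -/
def sMe (n k : ℕ) : ℕ := 1 + (sDe n + k * sDe n)

/-- time for `memB` -/
def tMe (n k : ℕ) : ℕ := 1 + (tDe n + k * tDe n)

theorem comp_memB (F : St n k) (e : Fin n × Fin n) :
    Comp (sMe n k) (tMe n k) (fun z => memB (mat z) F e) := by
  have h := comp_any (S := sDe n) (T := tDe n) (List.finRange k)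
    (fun i (z : Fin n × Fin n → Bool) => atPlace F i fun f => descB (mat z) f e)
    (fun i => comp_atPlace F i (fun f z => descB (mat z) f e) fun f => comp_descB f e)
  rw [List.length_finRange] at h
  exact (comp_entry e.1 e.2).and ((comp_closedB e).or h)

theorem comp_actB (F : St n k) (a b : Fin n) :
    Comp (sMe n k + sMe n k) (tMe n k + tMe n k) (fun z => actB (mat z) F a b) :=
  (comp_memB F (a, b)).or (comp_memB F (b, a))

/-- size for `inC` -/
def sIn (n k l : ℕ) : ℕ := l * (n * 2 * (sMe n k + sMe n k))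

/-- time for `inC` -/
def tIn (n k l : ℕ) : ℕ := l * (tMe n k + tMe n k)

theorem comp_inC (σ : List (Fin n)) (s : Fin n) (F : St n k) (v : Fin n) :
    Comp (sIn n k σ.length) (tIn n k σ.length) (fun z => inC σ s (mat z) F v) :=
  comp_walk _ (comp_actB F) _ s σ

/-- size for `testB` -/
def sTe (n k l : ℕ) : ℕ := 1 + (sMe n k + sIn n k l)

/-- time for `testB` -/
def tTe (n k l : ℕ) : ℕ := 1 + (tMe n k + tIn n k l)

theorem comp_testB (σ : List (Fin n)) (s : Fin n) (F : St n k) (e : Fin n × Fin n) :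
    Comp (sTe n k σ.length) (tTe n k σ.length) (fun z => testB σ s (mat z) F e) :=
  (comp_entry e.1 e.2).and ((comp_memB F e).not.and (comp_inC σ s F e.1))

/-- size for `upd` -/
def sUp (n k l : ℕ) : ℕ := n * n * sTe n k l + (n * n + 1) * (k * sDe n)

/-- time for `upd` -/
def tUp (n k l : ℕ) : ℕ := n * n * tTe n k l + k * tDe n

theorem comp_upd (σ : List (Fin n)) (s : Fin n) (F : St n k) :
    Comp (sUp n k σ.length) (tUp n k σ.length) (fun z => upd σ s (mat z) F) := by
  have h1 := comp_find (S := sTe n k σ.length) (T := tTe n k σ.length) (allPairs n)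
    (fun e (z : Fin n × Fin n → Bool) => testB σ s (mat z) F e) (comp_testB σ s F)
  rw [length_allPairs] at h1
  have h2 : ∀ o : Option (Fin n × Fin n), Comp (k * sDe n) (k * tDe n)
      (fun z : Fin n × Fin n → Bool => upd1 (mat z) F o) := by
    intro o
    cases o with
    | none => exact (comp_pure F).mono (Nat.zero_le _) (Nat.zero_le _)
    | some e =>
      have h3 := comp_find (S := sDe n) (T := tDe n) (List.finRange k)
        (fun i (z : Fin n × Fin n → Bool) => atPlace F i fun f => descB (mat z) e f)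
        (fun i => comp_atPlace F i (fun f z => descB (mat z) e f) fun f => comp_descB e f)
      rw [List.length_finRange] at h3
      exact h3.map (place F e)
  have h4 := h1.bind' h2
  rw [Fintype.card_option, Fintype.card_prod, Fintype.card_fin] at h4
  exact h4

/-- the size of the whole program -/
def sAll (n k l : ℕ) : ℕ :=
  (n * n + 1) * ((n * n + 1) ^ k * sUp n k l) + (n * n + 1) ^ k * sIn n k l

/-- the time of the whole program -/
def tAll (n k l : ℕ) : ℕ := (n * n + 1) * tUp n k l + tIn n k l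

theorem comp_all_run (σ : List (Fin n)) (s t : Fin n) :
    Comp (sAll n k σ.length) (tAll n k σ.length)
      (fun z => inC σ s (mat z) (run σ s (mat z) k) t) := by
  have h1 := comp_iterate (α := St n k) (n * n + 1)
    (fun F (z : Fin n × Fin n → Bool) => upd σ s (mat z) F) (comp_upd σ s) (fun _ => none)
  have h2 := h1.bind' (fun F => comp_inC σ s F t)
  have hc : Fintype.card (St n k) = (n * n + 1) ^ k := by
    simp
  rw [hc] at h2
  exact h2

/-! ### Bounds -/

section Bounds

variable {m : ℕ}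

theorem sNx_le (hm : 2 ≤ m) (hn : n + 1 = m) : sNx n ≤ m ^ 5 := by
  unfold sNx
  have h0 : n ≤ m := by omega
  rw [hn]
  have h1 : 1 ≤ m ^ 2 := Nat.one_le_pow _ _ (by omega)
  calc 1 + (n * m + m * (n * (1 + n * m)))
      ≤ 1 + (m * m + m * (m * (1 + m * m))) := by gcongr
    _ = 1 + 2 * m ^ 2 + m ^ 4 := by ring
    _ ≤ m ^ 2 * m ^ 3 := by
        have h2 : 4 ≤ m ^ 2 := by nlinarith
        have h3 : 2 * m ^ 4 ≤ m ^ 2 * m ^ 3 := by
          have : m ^ 2 * m ^ 3 = m * m ^ 4 := by ring
          rw [this]; gcongr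
        have h4 : 1 + 2 * m ^ 2 ≤ m ^ 4 := by nlinarith
        omega
    _ = m ^ 5 := by ring

theorem tNx_le (hm : 2 ≤ m) (hn : n + 1 = m) : tNx n ≤ m ^ 2 := by
  unfold tNx
  subst hn
  nlinarith

theorem sq_le (hn : n + 1 = m) : n * n ≤ m ^ 2 := by subst hn; nlinarith

theorem sq_le' (hn : n + 1 = m) : n * n + 1 ≤ m ^ 2 := by subst hn; nlinarith

theorem sDe_le (hm : 2 ≤ m) (hn : n + 1 = m) : sDe n ≤ m ^ 11 := by
  unfold sDe
  calc n * n * (n * n * ((n * n + 1) * sNx n)) ≤ m ^ 2 * (m ^ 2 * (m ^ 2 * m ^ 5)) := by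
        gcongr
        · exact sq_le hn
        · exact sq_le hn
        · exact sq_le' hn
        · exact sNx_le hm hn
    _ = m ^ 11 := by ring

theorem tDe_le (hm : 2 ≤ m) (hn : n + 1 = m) : tDe n ≤ m ^ 6 := by
  unfold tDe
  calc n * n * (n * n * tNx n) ≤ m ^ 2 * (m ^ 2 * m ^ 2) := by
        gcongr
        · exact sq_le hn
        · exact sq_le hn
        · exact tNx_le hm hn
    _ = m ^ 6 := by ring

theorem sMe_le (hm : 2 ≤ m) (hn : n + 1 = m) : sMe n k ≤ (k + 2) * m ^ 11 := by
  unfold sMe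
  have h := sDe_le hm hn
  have h1 : 1 ≤ m ^ 11 := Nat.one_le_pow _ _ (by omega)
  nlinarith [Nat.mul_le_mul_left k h]

theorem tMe_le (hm : 2 ≤ m) (hn : n + 1 = m) : tMe n k ≤ (k + 2) * m ^ 6 := by
  unfold tMe
  have h := tDe_le hm hn
  have h1 : 1 ≤ m ^ 6 := Nat.one_le_pow _ _ (by omega)
  nlinarith [Nat.mul_le_mul_left k h]

theorem len_le {l : ℕ} (hm : 2 ≤ m) (hn : n + 1 = m) (hl : l ≤ 6 * n ^ 5) : l ≤ m ^ 8 := by
  calc l ≤ 6 * n ^ 5 := hl
    _ ≤ m ^ 3 * m ^ 5 := by
        gcongr
        · calc 6 ≤ 2 ^ 3 := by norm_num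
            _ ≤ m ^ 3 := by gcongr
        · omega
    _ = m ^ 8 := by ring

theorem sIn_le {l : ℕ} (hm : 2 ≤ m) (hn : n + 1 = m) (hl : l ≤ m ^ 8) :
    sIn n k l ≤ (k + 2) * m ^ 22 := by
  unfold sIn
  have h := sMe_le (k := k) hm hn
  calc l * (n * 2 * (sMe n k + sMe n k))
      ≤ m ^ 8 * (m * m * ((k + 2) * m ^ 11 + (k + 2) * m ^ 11)) := by
        gcongr
        omega
    _ = (k + 2) * (m ^ 21 * 2) := by ring
    _ ≤ (k + 2) * (m ^ 21 * m) := by gcongr
    _ = (k + 2) * m ^ 22 := by ring

theorem tIn_le {l : ℕ} (hm : 2 ≤ m) (hn : n + 1 = m) (hl : l ≤ m ^ 8) :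
    tIn n k l ≤ (k + 2) * m ^ 15 := by
  unfold tIn
  have h := tMe_le (k := k) hm hn
  calc l * (tMe n k + tMe n k)
      ≤ m ^ 8 * ((k + 2) * m ^ 6 + (k + 2) * m ^ 6) := by gcongr
    _ = (k + 2) * (m ^ 14 * 2) := by ring
    _ ≤ (k + 2) * (m ^ 14 * m) := by gcongr
    _ = (k + 2) * m ^ 15 := by ring

theorem sTe_le {l : ℕ} (hm : 2 ≤ m) (hn : n + 1 = m) (hl : l ≤ m ^ 8) :
    sTe n k l ≤ (k + 2) * m ^ 24 := by
  unfold sTe
  have h1 := sMe_le (k := k) hm hn
  have h2 := sIn_le (k := k) hm hn hl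
  have h3 : m ^ 11 ≤ m ^ 22 := Nat.pow_le_pow_right (by omega) (by norm_num)
  have h4 : 1 ≤ m ^ 22 := Nat.one_le_pow _ _ (by omega)
  calc 1 + (sMe n k + sIn n k l) ≤ (k + 2) * m ^ 22 + ((k + 2) * m ^ 22 + (k + 2) * m ^ 22) := by
        gcongr
        · nlinarith
        · exact h1.trans (by gcongr)
    _ = (k + 2) * (m ^ 22 * 3) := by ring
    _ ≤ (k + 2) * (m ^ 22 * m ^ 2) := by gcongr; nlinarith
    _ = (k + 2) * m ^ 24 := by ring

theorem tTe_le {l : ℕ} (hm : 2 ≤ m) (hn : n + 1 = m) (hl : l ≤ m ^ 8) :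
    tTe n k l ≤ (k + 2) * m ^ 17 := by
  unfold tTe
  have h1 := tMe_le (k := k) hm hn
  have h2 := tIn_le (k := k) hm hn hl
  have h3 : m ^ 6 ≤ m ^ 15 := Nat.pow_le_pow_right (by omega) (by norm_num)
  have h4 : 1 ≤ m ^ 15 := Nat.one_le_pow _ _ (by omega)
  calc 1 + (tMe n k + tIn n k l) ≤ (k + 2) * m ^ 15 + ((k + 2) * m ^ 15 + (k + 2) * m ^ 15) := by
        gcongr
        · nlinarith
        · exact h1.trans (by gcongr)
    _ = (k + 2) * (m ^ 15 * 3) := by ring
    _ ≤ (k + 2) * (m ^ 15 * m ^ 2) := by gcongr; nlinarith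
    _ = (k + 2) * m ^ 17 := by ring

theorem sUp_le {l : ℕ} (hm : 2 ≤ m) (hn : n + 1 = m) (hl : l ≤ m ^ 8) :
    sUp n k l ≤ (k + 2) * m ^ 27 := by
  unfold sUp
  have h1 := sTe_le (k := k) hm hn hl
  have h2 := sDe_le hm hn
  have h3 : m ^ 13 ≤ m ^ 26 := Nat.pow_le_pow_right (by omega) (by norm_num)
  calc n * n * sTe n k l + (n * n + 1) * (k * sDe n)
      ≤ m ^ 2 * ((k + 2) * m ^ 24) + m ^ 2 * ((k + 2) * m ^ 11) := by
        gcongr
        · exact sq_le hn
        · exact sq_le' hn
        · omega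
    _ = (k + 2) * (m ^ 26 + m ^ 13) := by ring
    _ ≤ (k + 2) * (m ^ 26 + m ^ 26) := by gcongr
    _ = (k + 2) * (m ^ 26 * 2) := by ring
    _ ≤ (k + 2) * (m ^ 26 * m) := by gcongr
    _ = (k + 2) * m ^ 27 := by ring

theorem tUp_le {l : ℕ} (hm : 2 ≤ m) (hn : n + 1 = m) (hl : l ≤ m ^ 8) :
    tUp n k l ≤ (k + 2) * m ^ 20 := by
  unfold tUp
  have h1 := tTe_le (k := k) hm hn hl
  have h2 := tDe_le hm hn
  have h3 : m ^ 6 ≤ m ^ 19 := Nat.pow_le_pow_right (by omega) (by norm_num)
  calc n * n * tTe n k l + k * tDe n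
      ≤ m ^ 2 * ((k + 2) * m ^ 17) + (k + 2) * m ^ 6 := by
        gcongr
        · exact sq_le hn
        · omega
    _ = (k + 2) * (m ^ 19 + m ^ 6) := by ring
    _ ≤ (k + 2) * (m ^ 19 + m ^ 19) := by gcongr
    _ = (k + 2) * (m ^ 19 * 2) := by ring
    _ ≤ (k + 2) * (m ^ 19 * m) := by gcongr
    _ = (k + 2) * m ^ 20 := by ring

theorem sAll_le {l : ℕ} (hm : 2 ≤ m) (hn : n + 1 = m) (hl : l ≤ m ^ 8) :
    sAll n k l ≤ (k + 2) * m ^ (2 * k + 30) := by
  unfold sAll
  have h1 := sUp_le (k := k) hm hn hl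
  have h2 := sIn_le (k := k) hm hn hl
  have h0 : (n * n + 1) ^ k ≤ m ^ (2 * k) := by
    rw [pow_mul]
    exact Nat.pow_le_pow_left (sq_le' hn) k
  have h3 : m ^ 22 ≤ m ^ 29 := Nat.pow_le_pow_right (by omega) (by norm_num)
  calc (n * n + 1) * ((n * n + 1) ^ k * sUp n k l) + (n * n + 1) ^ k * sIn n k l
      ≤ m ^ 2 * (m ^ (2 * k) * ((k + 2) * m ^ 27)) + m ^ (2 * k) * ((k + 2) * m ^ 29) := by
        gcongr
        · exact sq_le' hn
        · exact h2.trans (by gcongr)
    _ = (k + 2) * (m ^ (2 * k) * (m ^ 29 * 2)) := by ring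
    _ ≤ (k + 2) * (m ^ (2 * k) * (m ^ 29 * m)) := by gcongr
    _ = (k + 2) * m ^ (2 * k + 30) := by ring

theorem tAll_le {l : ℕ} (hm : 2 ≤ m) (hn : n + 1 = m) (hl : l ≤ m ^ 8) :
    tAll n k l ≤ (k + 2) * m ^ 23 := by
  unfold tAll
  have h1 := tUp_le (k := k) hm hn hl
  have h2 := tIn_le (k := k) hm hn hl
  have h3 : m ^ 15 ≤ m ^ 22 := Nat.pow_le_pow_right (by omega) (by norm_num)
  calc (n * n + 1) * tUp n k l + tIn n k l
      ≤ m ^ 2 * ((k + 2) * m ^ 20) + (k + 2) * m ^ 22 := by
        gcongr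
        · exact sq_le' hn
        · exact h2.trans (by gcongr)
    _ = (k + 2) * (m ^ 22 * 2) := by ring
    _ ≤ (k + 2) * (m ^ 22 * m) := by gcongr
    _ = (k + 2) * m ^ 23 := by ring

end Bounds

/-- **Reachability in digraphs of imbalance at most `k`.** -/
theorem exists_program (n k : ℕ) (s t : Fin n) :
    ∃ B : BP (Fin n × Fin n) Bool, B.size ≤ (k + 2) * (n + 1) ^ (2 * k + 30) ∧
      ∀ z : Fin n × Fin n → Bool, ∃ b, B.Answers z ((k + 2) * (n + 1) ^ 23) b ∧
        (imbalance (mat z) ≤ k → (b = true ↔ Reach (mat z) s t)) := by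
  obtain ⟨σ, hl, hσ⟩ := exists_universal n s.pos
  have hm : 2 ≤ n + 1 := by have := s.pos; omega
  have hl' := len_le hm rfl hl
  have h := (comp_all_run (k := k) σ s t).mono (sAll_le hm rfl hl') (tAll_le hm rfl hl')
  obtain ⟨B, h1, h2⟩ := h
  exact ⟨B, h1, fun z => ⟨_, h2 z, fun hk => run_correct σ hσ hk t⟩⟩

/-! ### The level problem -/

open Classical in
/-- adjacency in the undirected graph which underlies the digraph `x` without the arcs with tail
in `T` -/
noncomputable def und (x : Fin n → Fin n → Bool) (T : Set (Fin n)) (a b : Fin n) : Bool :=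
  (decide (a ∉ T) && x a b) || (decide (b ∉ T) && x b a)

theorem und_symm (x : Fin n → Fin n → Bool) (T : Set (Fin n)) (a b : Fin n) :
    und x T a b = und x T b a := Bool.or_comm _ _

theorem und_iff {x : Fin n → Fin n → Bool} {T : Set (Fin n)} {a b : Fin n} :
    und x T a b = true ↔ (a ∉ T ∧ x a b = true) ∨ (b ∉ T ∧ x b a = true) := by
  unfold und
  simp

theorem conn_iff (x : Fin n → Fin n → Bool) (T : Set (Fin n)) (a b : Fin n) :
    Conn x T a b ↔ Relation.ReflTransGen (fun a b => und x T a b = true) a b := by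
  constructor
  · intro h
    induction h with
    | rel a b h => exact Relation.ReflTransGen.single (und_iff.2 (Or.inl h))
    | refl a => exact Relation.ReflTransGen.refl
    | symm a b _ ih =>
      clear * - ih
      induction ih with
      | refl => exact Relation.ReflTransGen.refl
      | tail _ hbc ih => exact Relation.ReflTransGen.head (by rw [und_symm]; exact hbc) ih
    | trans a b c _ _ ih1 ih2 => exact ih1.trans ih2
  · intro h
    induction h with
    | refl => exact Relation.EqvGen.refl _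
    | tail _ hbc ih =>
      refine Relation.EqvGen.trans _ _ _ ih ?_
      rcases und_iff.1 hbc with h | h
      · exact Relation.EqvGen.rel _ _ h
      · exact Relation.EqvGen.symm _ _ (Relation.EqvGen.rel _ _ h)

open Classical in
/-- **The level problem has branching programs of polynomial size.** -/
theorem exists_program_level (n k : ℕ) (s t : Fin n) :
    ∃ B : BP (Fin n × Fin n) Bool, B.size ≤ 24 * n ^ (k + 6) ∧
      ∀ z : Fin n × Fin n → Bool, B.Answers z (12 * n ^ (k + 5))
        (decide (∀ Y : Set (Fin n), s ∈ Y → Closed (mat z) Y → (entries (mat z) Y).ncard ≤ k →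
          t ∈ Y)) := by
  obtain ⟨σ, hl, hσ⟩ := exists_universal n s.pos
  have h1 : ∀ (T : Set (Fin n)) (a b : Fin n),
      Comp 2 2 (fun z : Fin n × Fin n → Bool => und (mat z) T a b) := by
    intro T a b
    exact (((comp_entry a b).map fun c => decide (a ∉ T) && c).or
      ((comp_entry b a).map fun c => decide (b ∉ T) && c))
  have h2 := comp_all (S := σ.length * (n * 2 * 2)) (T := σ.length * 2)
    (univ : Finset (Fin k → Fin n)).toList
    (fun c (z : Fin n × Fin n → Bool) => walkB (und (mat z) (Set.range c))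
      (fun v => decide (v = t ∨ v ∈ Set.range c)) s σ)
    (fun c => comp_walk _ (h1 (Set.range c)) _ s σ)
  have hlen : (univ : Finset (Fin k → Fin n)).toList.length = n ^ k := by
    rw [length_toList, card_univ]
    simp
  rw [hlen] at h2
  have hS : n ^ k * (σ.length * (n * 2 * 2)) ≤ 24 * n ^ (k + 6) := by
    calc n ^ k * (σ.length * (n * 2 * 2)) ≤ n ^ k * (6 * n ^ 5 * (n * 2 * 2)) := by gcongr
      _ = 24 * n ^ (k + 6) := by ring
  have hT : n ^ k * (σ.length * 2) ≤ 12 * n ^ (k + 5) := by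
    calc n ^ k * (σ.length * 2) ≤ n ^ k * (6 * n ^ 5 * 2) := by gcongr
      _ = 12 * n ^ (k + 5) := by ring
  obtain ⟨B, h3, h4⟩ := h2.mono hS hT
  refine ⟨B, h3, fun z => ?_⟩
  have h5 := h4 z
  convert h5 using 1
  rw [Bool.eq_iff_iff, decide_eq_true_iff, level_iff, List.all_eq_true]
  simp only [mem_toList, mem_univ, true_implies, walkB_iff, decide_eq_true_eq]
  refine forall_congr' fun c => exists_congr fun v => and_congr_right fun _ => ?_
  rw [conn_iff]
  exact (hits_iff hσ (und_symm (mat z) (Set.range c)) s v).symm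

end Pool.Agent.L5helper52.Imb
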