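import Mathlib

set_option autoImplicit false

/-!
# Reachability in digraphs and deterministic branching programs: definitions

A digraph on a finite type `V` is a map `x : V → V → Bool` (the entries of its adjacency matrix,
loops allowed). `x a b = true` means that there is an arc from `a` to `b`.
-/

namespace Pool.Agent.L5helper52.Imb

open Finset

section Digraphs

variable {V : Type}

/-- There is a directed path from `s` to `t` in the digraph `x`. -/
def Reach (x : V → V → Bool) (s t : V) : Prop :=
  Relation.ReflTransGen (fun a b => x a b = true) s t

/-- No arc leaves the set `Y`. -/
def Closed (x : V → V → Bool) (Y : Set V) : Prop :=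
  ∀ a b, a ∈ Y → x a b = true → b ∈ Y

/-- The vertices outside `Y` from which an arc leads into `Y`. -/
def entries (x : V → V → Bool) (Y : Set V) : Set V :=
  {a | a ∉ Y ∧ ∃ b ∈ Y, x a b = true}

/-- The number of arcs which leave the vertex `v`. -/
def outdeg [Fintype V] (x : V → V → Bool) (v : V) : ℕ := (univ.filter fun w => x v w = true).card

/-- The number of arcs which enter the vertex `v`. -/
def indeg [Fintype V] (x : V → V → Bool) (v : V) : ℕ := (univ.filter fun w => x w v = true).card

/-- The imbalance of a digraph: the sum of `outdeg v - indeg v` over the vertices with
`outdeg v > indeg v` (truncated subtraction). It is `0` iff the digraph is Eulerian, that is, every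
vertex has as many incoming as outgoing arcs. -/
def imbalance [Fintype V] (x : V → V → Bool) : ℕ := ∑ v, (outdeg x v - indeg x v)

/-- The number of places in which the adjacency matrices of `x` and `y` differ: the number of arcs
which have to be deleted or added in order to get from `x` to `y`. -/
def editDist [Fintype V] (x y : V → V → Bool) : ℕ :=
  (univ.filter fun p : V × V => x p.1 p.2 ≠ y p.1 p.2).card

end Digraphs

/-- Deterministic branching programs which query the entries of an input `ι → Bool` and whose
answers are elements of `α`. Every node queries one entry and has one successor for each value of
this entry; a successor is a node or an answer (`Sum.inr a`). The rank shows that the graph has no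
cycles. -/
structure BP (ι α : Type) where
  /-- the nodes -/
  N : Type
  /-- there are finitely many nodes -/
  fin : Fintype N
  /-- the entry which is queried -/
  query : N → ι
  /-- the successors -/
  next : N → Bool → N ⊕ α
  /-- a rank function, which excludes cycles -/
  rank : N → ℕ
  acyclic : ∀ i b j, next i b = Sum.inl j → rank i < rank j
  /-- where the computation starts -/
  start : N ⊕ α

namespace BP

variable {ι α : Type}

/-- The size: the number of nodes. Its logarithm is the space. -/
def size (B : BP ι α) : ℕ := @Fintype.card B.N B.fin

/-- One step of the computation on the input `x`. Answers are final. -/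
def step (B : BP ι α) (x : ι → Bool) : B.N ⊕ α → B.N ⊕ α
  | Sum.inl i => B.next i (x (B.query i))
  | Sum.inr a => Sum.inr a

/-- On the input `x` the program gives the answer `a` after at most `T` queries. -/
def Answers (B : BP ι α) (x : ι → Bool) (T : ℕ) (a : α) : Prop :=
  (B.step x)^[T] B.start = Sum.inr a

end BP

end Pool.Agent.L5helper52.Imb
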