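import Mathlib

set_option autoImplicit false

/-!
# Orbits of partial injections of a finite set
-/

namespace Pool.Agent.L5helper52.Imb

open Finset

variable {α : Type}

/-- the iterates of a partial function -/
def itO (g : α → Option α) (j : ℕ) (a : α) : Option α := (fun o => o.bind g)^[j] (some a)

variable {g : α → Option α}

theorem itO_zero (a : α) : itO g 0 a = some a := rfl

theorem itO_succ (j : ℕ) (a : α) : itO g (j + 1) a = (itO g j a).bind g := by
  unfold itO
  rw [Function.iterate_succ_apply']

theorem itO_add (i j : ℕ) (a : α) : itO g (i + j) a = (itO g i a).bind (itO g j) := by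
  induction j with
  | zero =>
    rw [Nat.add_zero]
    cases itO g i a <;> rfl
  | succ j ih =>
    rw [← Nat.add_assoc, itO_succ, ih]
    cases itO g i a with
    | none => rfl
    | some b => simp [itO_succ]

theorem itO_one (a : α) : itO g 1 a = g a := by
  rw [itO_succ, itO_zero]; rfl

theorem itO_succ' (j : ℕ) (a : α) : itO g (j + 1) a = (g a).bind (itO g j) := by
  rw [Nat.add_comm, itO_add, itO_one]

/-- `b` is an iterated image of `a` -/
def Desc (g : α → Option α) (a b : α) : Prop := ∃ j, itO g j a = some b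

/-- `a` lies on a cycle -/
def Cyc (g : α → Option α) (a : α) : Prop := ∃ j, itO g (j + 1) a = some a

theorem Desc.refl (a : α) : Desc g a a := ⟨0, rfl⟩

theorem Desc.trans {a b c : α} (h : Desc g a b) (h' : Desc g b c) : Desc g a c := by
  obtain ⟨i, hi⟩ := h
  obtain ⟨j, hj⟩ := h'
  exact ⟨i + j, by rw [itO_add, hi]; exact hj⟩

theorem Desc.of_eq {a b : α} (h : g a = some b) : Desc g a b := ⟨1, by rw [itO_one, h]⟩

/-- two elements of the same orbit are comparable -/
theorem Desc.comparable {a b c : α} (h : Desc g a b) (h' : Desc g a c) :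
    Desc g b c ∨ Desc g c b := by
  obtain ⟨i, hi⟩ := h
  obtain ⟨j, hj⟩ := h'
  rcases le_total i j with hij | hij
  · left
    obtain ⟨d, rfl⟩ := Nat.exists_eq_add_of_le hij
    rw [itO_add, hi] at hj
    exact ⟨d, hj⟩
  · right
    obtain ⟨d, rfl⟩ := Nat.exists_eq_add_of_le hij
    rw [itO_add, hj] at hi
    exact ⟨d, hi⟩

theorem Desc.bound [Fintype α] {a b : α} (h : Desc g a b) :
    ∃ j < Fintype.card α, itO g j a = some b := by
  classical
  let j := Nat.find h
  have hj : itO g j a = some b := Nat.find_spec h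
  refine ⟨j, ?_, hj⟩
  by_contra hc
  push Not at hc
  -- all iterates up to `j` are defined
  have hdef : ∀ i ≤ j, ∃ c, itO g i a = some c := by
    intro i hi
    obtain ⟨d, hd⟩ := Nat.exists_eq_add_of_le hi
    rw [hd, itO_add] at hj
    cases h0 : itO g i a with
    | none => rw [h0] at hj; simp at hj
    | some c => exact ⟨c, rfl⟩
  have : Nonempty α := ⟨a⟩
  choose! c hcc using hdef
  obtain ⟨p, q, hpq, heq⟩ := Fintype.exists_ne_map_eq_of_card_lt
    (fun i : Fin (Fintype.card α + 1) => c i.1) (by simp)
  wlog hlt : p.1 < q.1 generalizing p q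
  · exact this q p hpq.symm heq.symm
      (lt_of_le_of_ne (not_lt.1 hlt) fun h => hpq (Fin.ext h.symm))
  have hq : q.1 ≤ j := by have := q.2; omega
  have hp : p.1 ≤ j := by omega
  -- cut out the loop
  have h1 : itO g (p.1 + (j - q.1)) a = some b := by
    rw [itO_add, hcc p.1 hp]
    have h2 : itO g (q.1 + (j - q.1)) a = some b := by
      rw [Nat.add_sub_cancel' hq]; exact hj
    rw [itO_add, hcc q.1 hq] at h2
    have heq' : c p.1 = c q.1 := heq
    rw [heq']
    exact h2
  have h3 : j ≤ p.1 + (j - q.1) := Nat.find_min' h h1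
  omega

theorem Cyc.bound [Fintype α] {a : α} (h : Cyc g a) :
    ∃ j < Fintype.card α, itO g (j + 1) a = some a := by
  obtain ⟨j, hj⟩ := h
  rw [itO_succ'] at hj
  cases h0 : g a with
  | none => rw [h0] at hj; simp at hj
  | some b =>
    rw [h0] at hj
    obtain ⟨i, hi, h1⟩ := Desc.bound (g := g) (a := b) (b := a) ⟨j, hj⟩
    exact ⟨i, hi, by rw [itO_succ', h0]; exact h1⟩

theorem Cyc.step {a b : α} (h : Cyc g a) (hab : g a = some b) : Cyc g b := by
  obtain ⟨j, hj⟩ := h
  rw [itO_succ', hab] at hj
  have h1 : itO g j b = some a := hj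
  exact ⟨j, by rw [itO_succ, h1]; exact hab⟩

theorem Cyc.desc {a b : α} (h : Cyc g a) (hab : Desc g a b) : Cyc g b := by
  obtain ⟨j, hj⟩ := hab
  induction j generalizing b with
  | zero =>
    rw [itO_zero, Option.some.injEq] at hj
    exact hj ▸ h
  | succ j ih =>
    rw [itO_succ] at hj
    cases h0 : itO g j a with
    | none => rw [h0] at hj; simp at hj
    | some c =>
      rw [h0] at hj
      exact (ih h0).step hj

/-- Every element which is not on a cycle has a first ancestor. -/
theorem exists_start [Finite α] {f : α} (hf : ¬ Cyc g f) : ∃ z, Desc g z f ∧ ∀ y, g y ≠ some z := by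
  by_contra hc
  push Not at hc
  have hp : ∀ z : {z // Desc g z f}, ∃ y : {z // Desc g z f}, g y.1 = some z.1 := by
    rintro ⟨z, hz⟩
    obtain ⟨y, hy⟩ := hc z hz
    exact ⟨⟨y, (Desc.of_eq hy).trans hz⟩, hy⟩
  choose p hp using hp
  have hpi : Function.Injective p := by
    intro z z' h
    have h1 := hp z
    have h2 := hp z'
    rw [h, h2] at h1
    exact Subtype.ext (Option.some.inj h1).symm
  obtain ⟨z, hz⟩ := Finite.surjective_of_injective hpi ⟨f, Desc.refl f⟩
  have h1 := hp z
  rw [hz] at h1
  obtain ⟨j, hj⟩ := z.2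
  apply hf
  exact ⟨j, by rw [itO_succ', h1]; exact hj⟩

end Pool.Agent.L5helper52.Imb
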