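import Pool.Agent.L5helper52.Imb.Defs
import Pool.Agent.L5helper52.Imb.Orbit

set_option autoImplicit false

/-!
# Pairing the incoming with the outgoing arcs

At every vertex the `r`-th incoming arc is continued by the `r`-th outgoing arc. The arcs are
decomposed into closed trails and open trails; the number of open trails is the imbalance.
-/

namespace Pool.Agent.L5helper52.Imb

open Finset

variable {n : ℕ}

/-- the number of the in-neighbours of `v` before `a` -/
def cin (x : Fin n → Fin n → Bool) (v a : Fin n) : ℕ :=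
  (univ.filter fun c => c < a ∧ x c v = true).card

/-- the number of the out-neighbours of `v` before `b` -/
def cout (x : Fin n → Fin n → Bool) (v b : Fin n) : ℕ :=
  (univ.filter fun c => c < b ∧ x v c = true).card

theorem cin_lt_cin {x : Fin n → Fin n → Bool} {v a a' : Fin n} (h : a < a') (ha : x a v = true) :
    cin x v a < cin x v a' := by
  refine card_lt_card ((ssubset_iff_of_subset ?_).2 ⟨a, ?_, ?_⟩)
  · intro c hc
    simp only [mem_filter, mem_univ, true_and] at hc ⊢
    exact ⟨hc.1.trans h, hc.2⟩
  · simp [h, ha]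
  · simp

theorem cout_lt_cout {x : Fin n → Fin n → Bool} {v b b' : Fin n} (h : b < b')
    (hb : x v b = true) : cout x v b < cout x v b' := by
  refine card_lt_card ((ssubset_iff_of_subset ?_).2 ⟨b, ?_, ?_⟩)
  · intro c hc
    simp only [mem_filter, mem_univ, true_and] at hc ⊢
    exact ⟨hc.1.trans h, hc.2⟩
  · simp [h, hb]
  · simp

theorem cin_inj {x : Fin n → Fin n → Bool} {v a a' : Fin n} (ha : x a v = true)
    (ha' : x a' v = true) (h : cin x v a = cin x v a') : a = a' := by
  rcases lt_trichotomy a a' with h1 | h1 | h1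
  · exact absurd h (cin_lt_cin h1 ha).ne
  · exact h1
  · exact absurd h.symm (cin_lt_cin h1 ha').ne

theorem cout_inj {x : Fin n → Fin n → Bool} {v b b' : Fin n} (hb : x v b = true)
    (hb' : x v b' = true) (h : cout x v b = cout x v b') : b = b' := by
  rcases lt_trichotomy b b' with h1 | h1 | h1
  · exact absurd h (cout_lt_cout h1 hb).ne
  · exact h1
  · exact absurd h.symm (cout_lt_cout h1 hb').ne

theorem cin_lt {x : Fin n → Fin n → Bool} {v a : Fin n} (ha : x a v = true) :
    cin x v a < indeg x v := by
  refine card_lt_card ((ssubset_iff_of_subset ?_).2 ⟨a, ?_, ?_⟩)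
  · intro c hc
    simp only [mem_filter, mem_univ, true_and] at hc ⊢
    exact hc.2
  · simp [ha]
  · simp

theorem cout_lt {x : Fin n → Fin n → Bool} {v b : Fin n} (hb : x v b = true) :
    cout x v b < outdeg x v := by
  refine card_lt_card ((ssubset_iff_of_subset ?_).2 ⟨b, ?_, ?_⟩)
  · intro c hc
    simp only [mem_filter, mem_univ, true_and] at hc ⊢
    exact hc.2
  · simp [hb]
  · simp

theorem cin_le (x : Fin n → Fin n → Bool) (v a : Fin n) : cin x v a ≤ n := by
  refine (card_le_univ _).trans ?_
  simp

theorem cout_le (x : Fin n → Fin n → Bool) (v a : Fin n) : cout x v a ≤ n := by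
  refine (card_le_univ _).trans ?_
  simp

/-- the ranks of the in-neighbours are `0, …, indeg v - 1` -/
theorem exists_cin {x : Fin n → Fin n → Bool} {v : Fin n} {r : ℕ} (hr : r < indeg x v) :
    ∃ a, x a v = true ∧ cin x v a = r := by
  have h := Finset.surj_on_of_inj_on_of_card_le (s := univ.filter fun w => x w v = true)
    (t := range (indeg x v)) (fun a _ => cin x v a)
    (fun a ha => mem_range.2 (cin_lt (mem_filter.1 ha).2))
    (fun a a' ha ha' h => cin_inj (mem_filter.1 ha).2 (mem_filter.1 ha').2 h)
    (by rw [card_range]; rfl) r (mem_range.2 hr)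
  obtain ⟨a, ha, h⟩ := h
  exact ⟨a, (mem_filter.1 ha).2, h.symm⟩

/-- the arc which continues the arc `e` -/
def nxa (x : Fin n → Fin n → Bool) (e : Fin n × Fin n) : Option (Fin n × Fin n) :=
  if x e.1 e.2 = true then
    ((List.finRange n).find? fun b => x e.2 b && (cout x e.2 b == cin x e.2 e.1)).map
      fun b => (e.2, b)
  else none

theorem nxa_iff (x : Fin n → Fin n → Bool) (e f : Fin n × Fin n) :
    nxa x e = some f ↔ x e.1 e.2 = true ∧ f.1 = e.2 ∧ x f.1 f.2 = true ∧
      cout x f.1 f.2 = cin x e.2 e.1 := by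
  unfold nxa
  constructor
  · intro h
    split_ifs at h with h0
    rw [Option.map_eq_some_iff] at h
    obtain ⟨b, h1, h2⟩ := h
    have h3 := List.find?_some h1
    simp only [Bool.and_eq_true, beq_iff_eq] at h3
    subst h2
    exact ⟨h0, rfl, h3.1, h3.2⟩
  · rintro ⟨h0, h1, h2, h3⟩
    rw [if_pos h0]
    obtain ⟨v, b⟩ := f
    simp only at h1 h2 h3
    subst h1
    cases h4 : (List.finRange n).find? fun b => x e.2 b && (cout x e.2 b == cin x e.2 e.1) with
    | none =>
      rw [List.find?_eq_none] at h4
      exact absurd (by simp [h2, h3]) (h4 b (List.mem_finRange b))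
    | some c =>
      have h5 := List.find?_some h4
      simp only [Bool.and_eq_true, beq_iff_eq] at h5
      have : c = b := cout_inj h5.1 h2 (h5.2.trans h3.symm)
      rw [this]
      rfl

theorem nxa_inj (x : Fin n → Fin n → Bool) (e e' f : Fin n × Fin n) (h : nxa x e = some f)
    (h' : nxa x e' = some f) : e = e' := by
  rw [nxa_iff] at h h'
  have h1 : e.2 = e'.2 := h.2.1.symm.trans h'.2.1
  refine Prod.ext ?_ h1
  refine cin_inj (v := e.2) h.1 ?_ ?_
  · rw [h1]; exact h'.1
  · rw [← h.2.2.2, h'.2.2.2, h1]

/-- the first arcs of the open trails -/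
def starts (x : Fin n → Fin n → Bool) : Finset (Fin n × Fin n) :=
  univ.filter fun e => x e.1 e.2 = true ∧ ∀ y, nxa x y ≠ some e

theorem card_starts_le (x : Fin n → Fin n → Bool) : (starts x).card ≤ imbalance x := by
  have h1 : (starts x).card = ∑ v, ((starts x).filter fun e => e.1 = v).card :=
    card_eq_sum_card_fiberwise (fun _ _ => mem_coe.2 (mem_univ _))
  rw [h1]
  refine sum_le_sum fun v _ => ?_
  rw [← Nat.card_Ico (indeg x v) (outdeg x v)]
  refine card_le_card_of_injOn (fun e => cout x v e.2) ?_ ?_
  · intro e he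
    simp only [starts, coe_filter, mem_filter, mem_univ, true_and, Set.mem_ofPred_eq] at he
    obtain ⟨⟨he1, he2⟩, rfl⟩ := he
    simp only [coe_Ico, Set.mem_Ico]
    refine ⟨?_, cout_lt he1⟩
    by_contra hc
    push Not at hc
    obtain ⟨a, ha, hr⟩ := exists_cin hc
    exact he2 (a, e.1) ((nxa_iff x _ _).2 ⟨ha, rfl, he1, hr.symm⟩)
  · intro e he e' he' h
    simp only [starts, coe_filter, mem_filter, mem_univ, true_and, Set.mem_ofPred_eq] at he he'
    obtain ⟨⟨he1, _⟩, rfl⟩ := he
    obtain ⟨⟨he1', _⟩, he3⟩ := he'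
    refine Prod.ext he3.symm ?_
    rw [he3] at he1'
    exact cout_inj he1 he1' h

/-- Incomparable arcs outside the closed trails: there are at most as many as the imbalance. -/
theorem card_le_imbalance (x : Fin n → Fin n → Bool) {I : Type} [Fintype I]
    (h : I → Fin n × Fin n) (h1 : ∀ i, x (h i).1 (h i).2 = true) (h2 : ∀ i, ¬ Cyc (nxa x) (h i))
    (h3 : ∀ i j, Desc (nxa x) (h i) (h j) → i = j) : Fintype.card I ≤ imbalance x := by
  have h4 : ∀ i, ∃ z ∈ starts x, Desc (nxa x) z (h i) := by
    intro i
    obtain ⟨z, hz, hz'⟩ := exists_start (h2 i)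
    refine ⟨z, ?_, hz⟩
    simp only [starts, mem_filter, mem_univ, true_and]
    refine ⟨?_, hz'⟩
    obtain ⟨j, hj⟩ := hz
    cases j with
    | zero =>
      rw [itO_zero, Option.some.injEq] at hj
      rw [hj]; exact h1 i
    | succ j =>
      rw [itO_succ'] at hj
      cases h5 : nxa x z with
      | none => rw [h5] at hj; simp at hj
      | some w => exact ((nxa_iff x _ _).1 h5).1
  choose z hz hz' using h4
  refine le_trans ?_ (card_starts_le x)
  rw [← card_univ]
  refine card_le_card_of_injOn z (fun i _ => hz i) ?_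
  intro i _ j _ hij
  have h5 := hz' i
  have h6 := hz' j
  rw [← hij] at h6
  rcases h5.comparable h6 with h7 | h7
  · exact h3 i j h7
  · exact (h3 j i h7).symm

/-- trails are walks -/
theorem reach_of_desc {x : Fin n → Fin n → Bool} {e f : Fin n × Fin n}
    (h : Desc (nxa x) e f) : Reach x e.1 f.1 := by
  obtain ⟨j, hj⟩ := h
  induction j generalizing f with
  | zero =>
    rw [itO_zero, Option.some.injEq] at hj
    rw [hj]
    exact Relation.ReflTransGen.refl
  | succ j ih =>
    rw [itO_succ] at hj
    cases h0 : itO (nxa x) j e with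
    | none => rw [h0] at hj; simp at hj
    | some c =>
      rw [h0] at hj
      have h1 := (nxa_iff x c f).1 hj
      refine (ih h0).tail ?_
      rw [h1.2.1]
      exact h1.1

theorem reach_of_cyc {x : Fin n → Fin n → Bool} {e : Fin n × Fin n} (h : Cyc (nxa x) e) :
    Reach x e.2 e.1 := by
  obtain ⟨j, hj⟩ := h
  rw [itO_succ'] at hj
  cases h0 : nxa x e with
  | none => rw [h0] at hj; simp at hj
  | some c =>
    rw [h0] at hj
    have h1 := (nxa_iff x e c).1 h0
    have h2 : Reach x c.1 e.1 := reach_of_desc ⟨j, hj⟩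
    rwa [h1.2.1] at h2

end Pool.Agent.L5helper52.Imb
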